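import Pool.Agent.H53.KNW.EndB

/-!
# The labels at the window zero

The facts about one label which are used at the end of the walk.
-/

set_option autoImplicit false

namespace Pool.KNW

open Finset MvPolynomial
open Pool.LAT (Bd Sp)
open Pool.SH (Ln lpos)
open Pool.GEN (pnt)
open Pool.BJ (Ix mon dM mnr jm JF JF_mul_le JF_nonneg)
open Pool.KNB (Jx nJ mo cmb)
open Pool.GC
open Pool.THIN (cv deg_cv cv_le lip_box ext_box)

variable {m E : ℕ}

theorem nJ_pos (hm : 1 ≤ m) (hE : 1 ≤ E) : 0 < nJ m E := by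
  have : Nonempty (Jx m E) := ⟨xI hE ⟨0, hm⟩⟩
  exact Fintype.card_pos

/-- **The functions of a body near a line.** -/
theorem tube_FB (m E : ℕ) : ∃ C : ℝ, 1 ≤ C ∧ ∀ (B : Bd (nJ m E)) (l : Ln m) (t δ : ℝ)
    (y : Fin m → ℝ), (∀ k, |l.1 k| ≤ 2) → (∀ k, |l.2 k| ≤ 2) → 0 ≤ t → t ≤ 1 → 0 < δ → δ ≤ 1 →
    (∀ k, |y k| ≤ δ) → ∀ a,
      |eval (pnt t fun k => lpos l t k + y k) (FB B a) - eval (pnt t (lpos l t)) (FB B a)| ≤
        C * 2 ^ dep B * δ := by
  obtain ⟨C₁, hC₁, hlip⟩ := lip_box ((m + 1) * E)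
  obtain ⟨C₂, hC₂, hext⟩ := ext_box ((m + 1) * E)
  obtain ⟨n, hn⟩ : ∃ n : ℝ, n = (nJ m E : ℝ) + 1 := ⟨_, rfl⟩
  have hn1 : 1 ≤ n := by
    rw [hn]
    have : (0 : ℝ) ≤ (nJ m E : ℝ) := Nat.cast_nonneg _
    linarith
  have h7 : (1 : ℝ) ≤ 7 ^ ((m + 1) * E) := one_le_pow₀ (by norm_num)
  refine ⟨C₁ * (C₂ * 7 ^ ((m + 1) * E) * n), ?_, ?_⟩
  · exact one_le_mul_of_one_le_of_one_le hC₁
      (one_le_mul_of_one_le_of_one_le (one_le_mul_of_one_le_of_one_le hC₂ h7) hn1)
  intro B l t δ y h1 h2 ht0 ht1 hδ hδ1 hy a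
  have hpos : ∀ k, |lpos l t k| ≤ 4 := by
    intro k
    have e : lpos l t k = l.1 k + t * l.2 k := rfl
    rw [e]
    refine (abs_add_le _ _).trans ?_
    rw [abs_mul, abs_of_nonneg ht0]
    have h3 : t * |l.2 k| ≤ 1 * 2 := mul_le_mul ht1 (h2 k) (abs_nonneg _) zero_le_one
    linarith [h1 k]
  have hM : ∀ z : Option (Fin m) → ℝ, (∀ i, |z i - pnt t (lpos l t) i| ≤ 1) →
      |eval z (FB B a)| ≤ C₂ * 7 ^ ((m + 1) * E) * n * 2 ^ dep B := by
    intro z hz
    have h3 := hext (Option (Fin m)) (FB B a) 0 1 7 (nJ m E * 2 ^ dep B) (deg_FB B a) one_pos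
      (by norm_num) (by
        intro z' hz'
        refine cv_le (mB B a) (mB_le B a) fun o => ?_
        have := hz' o
        rwa [Pi.zero_apply, sub_zero] at this) z (by
        intro o
        rw [Pi.zero_apply, sub_zero]
        have h4 := hz o
        cases o with
        | none =>
          have h5 : pnt t (lpos l t) none = t := rfl
          rw [h5] at h4
          rw [abs_le] at h4 ⊢
          constructor <;> linarith [h4.1, h4.2]
        | some k =>
          have h5 : pnt t (lpos l t) (some k) = lpos l t k := rfl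
          rw [h5] at h4
          have h6 := abs_le.1 (hpos k)
          rw [abs_le] at h4 ⊢
          constructor <;> linarith [h4.1, h4.2, h6.1, h6.2])
    rw [div_one] at h3
    refine h3.trans ?_
    have h4 : (nJ m E : ℝ) ≤ n := by rw [hn]; linarith
    calc C₂ * 7 ^ ((m + 1) * E) * (nJ m E * 2 ^ dep B) ≤
        C₂ * 7 ^ ((m + 1) * E) * (n * 2 ^ dep B) :=
          mul_le_mul_of_nonneg_left (mul_le_mul_of_nonneg_right h4 (by positivity)) (by positivity)
      _ = _ := by ring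
  have h3 := hlip (Option (Fin m)) (FB B a) (pnt t (lpos l t)) (pnt t fun k => lpos l t k + y k)
    δ 1 _ (deg_FB B a) hδ hδ1 hM (by
      intro o
      cases o with
      | none =>
        have e : pnt t (fun k => lpos l t k + y k) none - pnt t (lpos l t) none = 0 := sub_self t
        rw [e, abs_zero]
        exact hδ.le
      | some k =>
        have e : pnt t (fun k => lpos l t k + y k) (some k) - pnt t (lpos l t) (some k) = y k := by
          show lpos l t k + y k - lpos l t k = y k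
          ring
        rw [e]
        exact hy k)
  rw [div_one] at h3
  refine h3.trans (le_of_eq ?_)
  ring

/-! ### One label -/

variable {P : Par m E} {J w k a : ℕ} {c : Cc m E} {x : Ln m} {t : ℕ} {v : Vl m E}

/-- The Jacobian is large somewhere. -/
theorem okv_jac (h : okv P J w c k a x t v) : ∃ s ∈ win (w + v.al) (v.sw t),
    (2 : ℝ) ^ (v.sz - 1) < JF (FB v.c.B) (pnt s (lpos x s)) := by
  have h1 : (2 : ℝ) ^ (v.sz - 1) < SJ v.c.B (w + v.al) (v.sw t) x := by
    refine lt_of_lt_of_le ?_ h.sz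
    exact zpow_lt_zpow_right₀ one_lt_two (by omega)
  have hne : ((fun s => JF (FB v.c.B) (pnt s (lpos x s))) '' win (w + v.al) (v.sw t)).Nonempty := by
    refine Set.Nonempty.image _ ⟨((v.sw t : ℕ) : ℝ) / 2 ^ (w + v.al), ⟨le_refl _, ?_⟩⟩
    exact div_le_div_of_nonneg_right (by linarith) (by positivity)
  obtain ⟨_, ⟨s, hs, rfl⟩, hlt⟩ := exists_lt_of_lt_csSup hne h1
  exact ⟨s, hs, hlt⟩

/-- The size is bounded below. -/
theorem okv_sz (hE : 1 ≤ E) (h : okv P J w c k a x t v) :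
    (1 : ℝ) ≤ ((nJ m E : ℝ) * 2 ^ P.top) ^ m * 2 ^ (v.sz + 1) := by
  have hb : BddAbove ((fun s => JF (FB v.c.B) (pnt s (lpos x s))) '' win (w + v.al) (v.sw t)) := by
    by_contra hcon
    have h1 := h.sz
    unfold SJ at h1
    rw [Real.sSup_of_not_bddAbove hcon] at h1
    have h2 : (0 : ℝ) < 2 ^ v.sz := by positivity
    linarith
  obtain ⟨s, hs, -⟩ := okv_jac h
  have h1 := one_le_JF hE v.c.B h.top (pnt s (lpos x s))
  have h2 : JF (FB v.c.B) (pnt s (lpos x s)) ≤ SJ v.c.B (w + v.al) (v.sw t) x :=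
    le_csSup hb ⟨s, hs, rfl⟩
  have h3 := h2.trans h.sz'.le
  exact h1.trans (mul_le_mul_of_nonneg_left h3 (by positivity))

/-- The depth. -/
theorem okv_dep (h : okv P J w c k a x t v) : dep v.c.B ≤ c.fl + a := by
  unfold dep
  refine Finset.sup_le fun i _ => ?_
  have h1 := h.fl i
  omega

/-- The volume. -/
theorem vol_ge (P : Par m E) (B : Bd (nJ m E)) :
    -(P.om * (∑ i, P.M i) * Real.log 2 * dep B) ≤ P.vol B := by
  have hlog2 : 0 < Real.log 2 := Real.log_pos (by norm_num)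
  unfold Par.vol
  have h1 : ∑ i, P.M i * (-(dep B : ℝ)) ≤ ∑ i, P.M i * (B.r i : ℝ) := by
    refine Finset.sum_le_sum fun i _ => mul_le_mul_of_nonneg_left ?_ (P.M_nonneg i)
    have h2 : (-B.r i).toNat ≤ dep B := Finset.le_sup (f := fun i => (-B.r i).toNat)
      (Finset.mem_univ i)
    have h3 := Int.self_le_toNat (-B.r i)
    have h4 : -(dep B : ℤ) ≤ B.r i := by omega
    exact_mod_cast h4
  rw [← Finset.sum_mul] at h1
  have h2 := mul_le_mul_of_nonneg_left h1 (mul_nonneg P.om_nonneg hlog2.le)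
  calc -(P.om * (∑ i, P.M i) * Real.log 2 * dep B) =
      P.om * Real.log 2 * ((∑ i, P.M i) * (-(dep B : ℝ))) := by ring
    _ ≤ P.om * Real.log 2 * ∑ i, P.M i * (B.r i : ℝ) := h2
    _ = _ := by ring

/-- The window. -/
theorem okv_win (h : okv P J w c k a x t v) :
    0 ≤ ((v.sw t : ℕ) : ℝ) / 2 ^ (w + v.al) ∧
      ((v.sw t : ℕ) : ℝ) / 2 ^ (w + v.al) + 1 / 2 ^ (w + v.al) ≤ 1 := by
  refine ⟨by positivity, ?_⟩
  rw [← add_div, div_le_one (by positivity)]
  have h1 : v.sw t + 1 ≤ 2 ^ (w + v.al) := by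
    unfold Vl.sw
    have h2 := h.tlt
    have h3 := h.sb
    rw [pow_add]
    calc t * 2 ^ v.al + v.sb + 1 ≤ t * 2 ^ v.al + 2 ^ v.al := by omega
      _ = (t + 1) * 2 ^ v.al := by ring
      _ ≤ 2 ^ w * 2 ^ v.al := Nat.mul_le_mul_right _ h2
  exact_mod_cast h1

theorem mem_win {w t : ℕ} {s : ℝ} : s ∈ win w t ↔
    s ∈ Set.Icc ((t : ℝ) / 2 ^ w) ((t : ℝ) / 2 ^ w + 1 / 2 ^ w) := by
  unfold win
  rw [add_div]

end Pool.KNW
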