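import Pool.Agent.H53.KNW.End

/-!
# The two ends of the walk for the class of the bodies

`StaCls P ε`: the start half of `EndsNs` for the class `P.cls`, with a coarse cell whose floor is at
most `P.fl J` and a slack at most `a₀`. `ends_cls`: the start half and the end half together.
-/

set_option autoImplicit false

namespace Pool.KNW

open Finset Real
open Pool.Agent.H49.Ent Pool.Agent.H32.Dense Pool.STK Pool.KA
open Pool.GC

variable {m E : ℕ}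

/-- **(START)** The start of the walk for the class of the bodies. -/
def StaCls (P : Par m E) (ε : ℝ) : Prop :=
  ∃ (gg : ℕ → ℕ) (C : ℝ) (a₀ : ℕ), 0 ≤ C ∧ ∀ (J g : ℕ), gg J ≤ g → ∀ F : Fam m J, Nsy g F →
    ∃ (c : F.ζ → Cc m E) (k a r₀ : ℕ), a ≤ a₀ ∧
    (∀ ω, 0 < F.p ω → (c (F.Z ω)).w = 0) ∧
    (∀ ω, 0 < F.p ω → (c (F.Z ω)).fl ≤ P.fl J) ∧
    (k : ℝ) + r₀ ≤ C * (J + 1) ∧
    ∀ (θ : F.ζ → Vl m E → ℝ) (d : ℝ),
      (∀ z v, v.al = 0 → (∀ n : ℝ, 1 ≤ n → P.cls.lgv n k (c z) v ≤ Real.log (k + r₀ + 2)) →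
        J * P.cls.dp J v ≤ 1 → θ z v ≤ d) → P.cls.sys.Get F J c k a θ
      ((m + 1) * (J * Real.log 2) - CH F.p (fun ω => (F.X J ω, F.T ω)) F.Z - ε * J - C - d)

/-- **The two ends.** -/
theorem ends_cls (hm : 1 ≤ m) (hE : 1 ≤ E) (P : Par m E) {ε : ℝ} (hε : 0 ≤ ε)
    (hl1 : P.om * (∑ i, P.M i) * ((m + 1) * E * m : ℕ) ≤ 1)
    (hlε : P.om * (∑ i, P.M i) * ((m + 1) * E * m : ℕ) * ((m + 2) * Real.log 2) ≤ ε)
    (hS : StaCls P ε) : EndsNs m ε P.cls.sys := by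
  obtain ⟨gg₁, C₁, a₀, hC₁, h1⟩ := hS
  obtain ⟨gg₂, C₂, hC₂, h2⟩ := end_cls hm hE P a₀ hl1 hlε
  refine ⟨fun J => max (gg₁ J) (gg₂ J), C₁ + C₂, by linarith, ?_⟩
  rintro J F ⟨N⟩
  obtain ⟨c, k, a, r₀, ha, hw, hfl, hk, hst⟩ := h1 J _ (le_max_left _ _) F N
  refine ⟨c, k, a, r₀, fun ω hω => (hw ω hω).le, ?_, ?_, ?_⟩
  · refine hk.trans (mul_le_mul_of_nonneg_right (by linarith) (by positivity))
  · intro θ d hθ
    exact P.cls.sys.mono 0 le_rfl (fun z v => (add_zero _).ge) (by linarith) (hst θ d hθ)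
  · intro a' θ x ha' hθ hG
    have h3 := h2 J _ (le_max_right _ _) F N c k hfl a a' θ x ha ha' hθ hG
    have h4 : (0 : ℝ) ≤ ε * a' := mul_nonneg hε (Nat.cast_nonneg _)
    linarith

end Pool.KNW
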