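import Pool.Agent.H53.KNW.EndC

/-!
# The end of the walk for the class of the bodies

`end_cls`: the end half of `EndsNs` for the class `P.cls`, for all coarse cells with floor at most
`P.fl J`.
-/

set_option autoImplicit false

namespace Pool.KNW

open Finset MvPolynomial
open Pool.Agent.H49.Ent Pool.Agent.H32.Dense Pool.STK Pool.KA
open Pool.LAT (Bd Sp)
open Pool.SH (Ln lpos)
open Pool.GEN (pnt)
open Pool.BJ (Ix mon dM mnr jm JF JF_mul_le JF_nonneg LabJ ch_dirJ)
open Pool.KNB (Jx nJ mo cmb)
open Pool.KM7 (Psh)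
open Pool.GC
open Pool.THIN (cv deg_cv Nz gl thinM)

variable {m E : ℕ}

/-- The directions are in the unit box. -/
theorem ch_dir_le {J : ℕ} (F : Fam m J) :
    CH F.p (F.D J) F.Z ≤ m * (J * Real.log 2) + m * Real.log 7 := by
  have hJ : (1 : ℝ) ≤ 2 ^ J := one_le_pow₀ (by norm_num)
  have h1 := CH_le_vec F.isLaw.nonneg F.isLaw.sum_one (F.D J) F.Z (fun _ => 3 * 2 ^ J) (by
    intro a b _ _ _ k
    have ha := abs_le.1 (F.dir a k)
    have hb := abs_le.1 (F.dir b k)
    have f1 := Int.floor_le ((2 : ℝ) ^ J * F.d a k)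
    have f2 := Int.lt_floor_add_one ((2 : ℝ) ^ J * F.d a k)
    have f3 := Int.floor_le ((2 : ℝ) ^ J * F.d b k)
    have f4 := Int.lt_floor_add_one ((2 : ℝ) ^ J * F.d b k)
    have g1 : (2 : ℝ) ^ J * F.d a k ≤ 2 ^ J * 1 := mul_le_mul_of_nonneg_left ha.2 (by positivity)
    have g2 : (2 : ℝ) ^ J * -1 ≤ 2 ^ J * F.d a k := mul_le_mul_of_nonneg_left ha.1 (by positivity)
    have g3 : (2 : ℝ) ^ J * F.d b k ≤ 2 ^ J * 1 := mul_le_mul_of_nonneg_left hb.2 (by positivity)
    have g4 : (2 : ℝ) ^ J * -1 ≤ 2 ^ J * F.d b k := mul_le_mul_of_nonneg_left hb.1 (by positivity)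
    have e : ((F.D J a k - F.D J b k : ℤ) : ℝ) =
        (⌊(2 : ℝ) ^ J * F.d a k⌋ : ℝ) - (⌊(2 : ℝ) ^ J * F.d b k⌋ : ℝ) := by
      have : F.D J a k - F.D J b k = ⌊(2 : ℝ) ^ J * F.d a k⌋ - ⌊(2 : ℝ) ^ J * F.d b k⌋ := rfl
      rw [this]
      push_cast
      ring
    rw [e, abs_le]
    constructor <;> linarith)
  rw [Ex_const F.isLaw.sum_one] at h1
  have h2 : Real.log (2 * (3 * 2 ^ J) + 1) ≤ J * Real.log 2 + Real.log 7 := by
    have h3 : (2 : ℝ) * (3 * 2 ^ J) + 1 ≤ 2 ^ J * 7 := by linarith
    refine (Real.log_le_log (by positivity) h3).trans (le_of_eq ?_)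
    rw [Real.log_mul (by positivity) (by norm_num), Real.log_pow]
  have h3 : (m : ℝ) * Real.log (2 * (3 * 2 ^ J) + 1) ≤ m * (J * Real.log 2 + Real.log 7) :=
    mul_le_mul_of_nonneg_left h2 (Nat.cast_nonneg _)
  linarith

/-- **The end of the walk.** -/
theorem end_cls (hm : 1 ≤ m) (hE : 1 ≤ E) (P : Par m E) (a₀ : ℕ) {ε : ℝ}
    (hl1 : P.om * (∑ i, P.M i) * ((m + 1) * E * m : ℕ) ≤ 1)
    (hlε : P.om * (∑ i, P.M i) * ((m + 1) * E * m : ℕ) * ((m + 2) * Real.log 2) ≤ ε) :
    ∃ (gg : ℕ → ℕ) (C : ℝ), 0 ≤ C ∧ ∀ (J g : ℕ), gg J ≤ g → ∀ (F : Fam m J), Nsy g F →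
      ∀ (c : F.ζ → Cc m E) (k : ℕ), (∀ ω, 0 < F.p ω → (c (F.Z ω)).fl ≤ P.fl J) →
      ∀ (a a' : ℕ) (θ : F.ζ → Vl m E → ℝ) (x : ℝ), a ≤ a₀ → a' ≤ J → (∀ z v, 0 ≤ θ z v) →
        P.cls.sys.Get F 0 c k (a + a') θ x →
        x ≤ m * (J * Real.log 2) - CH F.p (F.D J) F.Z + ε * J + C := by
  obtain ⟨C₁, hC₁, hdirJ⟩ := ch_dirJ m (nJ m E) ((m + 1) * E)
  obtain ⟨C₂, hC₂, hthin⟩ := thinM m E hm hE 2 (by norm_num)
  obtain ⟨κ, hκ, hnear⟩ := cel_near m E
  obtain ⟨C₄, hC₄, htube⟩ := tube_FB m E
  have hlog2 : 0 < Real.log 2 := Real.log_pos (by norm_num)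
  have hnJ := nJ_pos (m := m) hm hE
  obtain ⟨n, hn⟩ : ∃ n : ℝ, n = (nJ m E : ℝ) := ⟨_, rfl⟩
  have hn1 : 1 ≤ n := by
    rw [hn]
    exact_mod_cast hnJ
  have hn0 : 0 < n := by linarith only [hn1]
  have hκ0 : 0 < κ := by linarith only [hκ]
  obtain ⟨K₀, hK₀⟩ : ∃ K₀ : ℝ, K₀ = (n * 2 ^ P.top) ^ m := ⟨_, rfl⟩
  have hK₀0 : 0 < K₀ := by rw [hK₀]; positivity
  obtain ⟨R₀, hR₀⟩ : ∃ R₀ : ℝ, R₀ = (n * κ) ^ m * (4 * K₀) := ⟨_, rfl⟩
  have hR₀0 : 0 < R₀ := by rw [hR₀]; positivity
  obtain ⟨n₁, hn₁⟩ := pow_unbounded_of_one_lt (C₂ + C₂ * R₀ + C₄) (one_lt_two (α := ℝ))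
  obtain ⟨n₀, hn₀⟩ : ∃ n₀ : ℝ, n₀ = (((m + 1) * E * m : ℕ) : ℝ) := ⟨_, rfl⟩
  have hn₀1 : 1 ≤ n₀ := by
    rw [hn₀]
    exact_mod_cast Nat.mul_pos (Nat.mul_pos (Nat.succ_pos m) hE) hm
  have hn₀0 : 0 < n₀ := by linarith only [hn₀1]
  rw [← hn₀] at hl1 hlε
  obtain ⟨lam, hlam⟩ : ∃ lam : ℝ, lam = P.om * (∑ i, P.M i) * n₀ := ⟨_, rfl⟩
  have hMs : 0 ≤ ∑ i, P.M i := Finset.sum_nonneg fun i _ => P.M_nonneg i
  have hlam0 : 0 ≤ lam := by
    rw [hlam]
    exact mul_nonneg (mul_nonneg P.om_nonneg hMs) hn₀0.le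
  rw [← hlam] at hl1 hlε
  obtain ⟨c₅, hc₅⟩ : ∃ c₅ : ℝ, c₅ = Real.log (κ * n) / Real.log 2 := ⟨_, rfl⟩
  exact by
   have hκn : 1 ≤ κ * n := one_le_mul_of_one_le_of_one_le hκ hn1
   have hc₅0 : 0 ≤ c₅ := by
     rw [hc₅]
     exact div_nonneg (Real.log_nonneg hκn) hlog2.le
   have hc₅2 : (2 : ℝ) ^ c₅ = κ * n := by
     rw [hc₅, Real.rpow_def_of_pos (by norm_num), mul_div_cancel₀ _ hlog2.ne',
       Real.exp_log (by linarith only [hκn])]
   have hlκ : 0 ≤ Real.log (1 + κ) := Real.log_nonneg (by linarith only [hκ])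
   have hlnκ : 0 ≤ Real.log (n * κ) := Real.log_nonneg (by rw [mul_comm]; exact hκn)
   have hl3 : 0 ≤ Real.log 3 := Real.log_nonneg (by norm_num)
   have hl7 : 0 ≤ Real.log 7 := Real.log_nonneg (by norm_num)
   have hm0 : (0 : ℝ) ≤ m := Nat.cast_nonneg m
   have htop0 : (0 : ℝ) ≤ P.top := Nat.cast_nonneg _
   obtain ⟨CF, hCF⟩ : ∃ CF : ℝ, CF = m * Real.log 3 + Real.log 2 + m * Real.log (1 + κ) + C₁ :=
     ⟨_, rfl⟩
   have hCF0 : 0 ≤ CF := by rw [hCF]; positivity
   obtain ⟨CT, hCT⟩ : ∃ CT : ℝ, CT = (P.top + c₅) * Real.log 2 + Real.log 2 +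
       m * Real.log (n * κ) + C₂ := ⟨_, rfl⟩
   have hCT0 : 0 ≤ CT := by rw [hCT]; positivity
   refine ⟨fun J => n₁ + (m + 1) * (P.fl J + a₀ + J), CF + CT + m * Real.log 7, by positivity, ?_⟩
   intro J g hg F N c k hfl a a' θ x ha ha' hθ hG
   obtain ⟨Ec, hfin, p', hp', pr, b, hpsh, hok, hx⟩ := hG
   have hok' : ∀ e, 0 < p' e → okv P J 0 (c (F.Z (pr e))) k (a + a') (F.l (pr e))
       (F.T (pr e) / 2 ^ (J - 0)) (b e) := fun e he => hok e he
   have ht0 : ∀ e, F.T (pr e) / 2 ^ (J - 0) = 0 := by
     intro e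
     rw [Nat.sub_zero]
     exact Nat.div_eq_of_lt (F.tim (pr e))
   have hok2 : ∀ e, 0 < p' e → okv P J 0 (c (F.Z (pr e))) k (a + a') (F.l (pr e)) 0 (b e) := by
     intro e he
     have h1 := hok' e he
     rwa [ht0] at h1
   exact by
    have hsw : ∀ v : Vl m E, v.sw 0 = v.sb := by
      intro v
      unfold Vl.sw
      rw [zero_mul, zero_add]
    -- the size of the bodies
    obtain ⟨X, hX⟩ : ∃ X : ℕ, X = P.fl J + a₀ + J := ⟨_, rfl⟩
    have hdepX : ∀ e, 0 < p' e → dep (b e).c.B ≤ X := by
      intro e he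
      have h1 := okv_dep (hok2 e he)
      have h2 := hfl (pr e) (hpsh.pos hp'.nonneg he)
      omega
    have hgX : n₁ + (m + 1) * X ≤ J + g := by
      have h1 : n₁ + (m + 1) * (P.fl J + a₀ + J) ≤ g := hg
      rw [← hX] at h1
      omega
    have hbig1 : (C₂ + C₂ * R₀ + C₄) * (2 ^ X) ^ (m + 1) ≤ (2 : ℝ) ^ (J + g) := by
      calc (C₂ + C₂ * R₀ + C₄) * (2 ^ X) ^ (m + 1) ≤ 2 ^ n₁ * (2 ^ X) ^ (m + 1) :=
            mul_le_mul_of_nonneg_right hn₁.le (by positivity)
        _ = (2 : ℝ) ^ (n₁ + (m + 1) * X) := by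
            rw [← pow_mul, ← pow_add, mul_comm X]
        _ ≤ 2 ^ (J + g) := pow_le_pow_right₀ (by norm_num) hgX
    have hX1 : (1 : ℝ) ≤ 2 ^ X := one_le_pow₀ (by norm_num)
    have hXm : (2 : ℝ) ^ X ≤ (2 ^ X) ^ (m + 1) := le_self_pow₀ hX1 (by omega)
    have hXm' : ((2 : ℝ) ^ X) ^ m ≤ (2 ^ X) ^ (m + 1) := pow_le_pow_right₀ hX1 (by omega)
    have hC₂R : 0 ≤ C₂ * R₀ := by positivity
    have hb2 : C₂ * 2 ^ X ≤ (2 : ℝ) ^ (J + g) := by
      refine le_trans ?_ hbig1
      exact mul_le_mul (by linarith only [hC₄, hC₂R]) hXm (by positivity) (by linarith only [hC₂, hC₄, hC₂R])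
    have hb3 : C₂ * R₀ * (2 ^ X) ^ m ≤ (2 : ℝ) ^ (J + g) := by
      refine le_trans ?_ hbig1
      exact mul_le_mul (by linarith only [hC₂, hC₄]) hXm' (by positivity) (by linarith only [hC₂, hC₄, hC₂R])
    exact by
     have hb4 : C₄ * 2 ^ X ≤ (2 : ℝ) ^ (J + g) := by
       refine le_trans ?_ hbig1
       exact mul_le_mul (by linarith only [hC₂, hC₂R]) hXm (by positivity) (by linarith only [hC₂, hC₄, hC₂R])
     -- the potential
     obtain ⟨S, hS⟩ : ∃ S : ℝ, S = Ex p' (fun e => (((b e).sz : ℝ) - m * (b e).al) * Real.log 2) :=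
       ⟨_, rfl⟩
     obtain ⟨Dp, hDp⟩ : ∃ Dp : ℝ, Dp = Ex p' (fun e => (dep (b e).c.B : ℝ)) := ⟨_, rfl⟩
     obtain ⟨H, hH⟩ : ∃ H : ℝ, H = CH p' b (fun e => F.Z (pr e)) := ⟨_, rfl⟩
     have h1 : x ≤ S + lam * Real.log 2 / n₀ * Dp - H := by
       have e1 : P.cls.toLA.Psi (F.ext p' hp' pr) θ 0 b = (((0 : ℕ) : ℝ) + m * J) * Real.log 2 -
           Ex p' (fun e => P.pot J (b e) + θ (F.Z (pr e)) (b e)) -
           CH p' (fun e => (F.T (pr e) / 2 ^ (J - 0), b e)) (fun e => F.Z (pr e)) := rfl
       have h2 : x ≤ (((0 : ℕ) : ℝ) + m * J) * Real.log 2 -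
           Ex p' (fun e => P.pot J (b e) + θ (F.Z (pr e)) (b e)) -
           CH p' (fun e => (F.T (pr e) / 2 ^ (J - 0), b e)) (fun e => F.Z (pr e)) := hx.trans e1.le
       have h3 : H ≤ CH p' (fun e => (F.T (pr e) / 2 ^ (J - 0), b e)) (fun e => F.Z (pr e)) := by
         rw [hH]
         exact CH_mono_left hp'.nonneg fun e e' _ _ hh => (Prod.ext_iff.1 (Prod.ext_iff.1 hh).1).2
       have h4 : (m : ℝ) * J * Real.log 2 - (S + lam * Real.log 2 / n₀ * Dp) ≤
           Ex p' (fun e => P.pot J (b e) + θ (F.Z (pr e)) (b e)) := by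
         have e2 : (m : ℝ) * J * Real.log 2 - (S + lam * Real.log 2 / n₀ * Dp) =
             Ex p' (fun e => m * J * Real.log 2 - ((((b e).sz : ℝ) - m * (b e).al) * Real.log 2 +
               lam * Real.log 2 / n₀ * (dep (b e).c.B : ℝ))) := by
           rw [Ex_sub, Ex_const hp'.sum_one, Ex_add, Ex_smul, hS, hDp]
         rw [e2]
         refine Ex_mono hp'.nonneg fun e he => ?_
         have h5 := vol_ge P (b e).c.B
         have h6 := hθ (F.Z (pr e)) (b e)
         have e3 : lam * Real.log 2 / n₀ = P.om * (∑ i, P.M i) * Real.log 2 := by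
           rw [hlam]
           field_simp
         have e4 : P.pot J (b e) = ((m : ℝ) * J - (b e).sz + m * (b e).al) * Real.log 2 +
             P.vol (b e).c.B := rfl
         rw [e3, e4]
         linarith only [h5, h6]
       push_cast at h2
       linarith only [hp', hx, e1, h3, h4]
     -- FIN
     exact by
      have h2 : S - H ≤ m * (J * Real.log 2) - CH F.p (F.D J) F.Z + CF := by
        have h3 := hdirJ Ec p' hp' (J + g) (Vl m E × F.ζ) (fun e => F.l (pr e))
          (fun e => (b e, F.Z (pr e))) (fun q => FB q.1.c.B) (fun q a => deg_FB q.1.c.B a)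
          (fun q => ((q.1.sw 0 : ℕ) : ℝ) / 2 ^ (0 + q.1.al)) (fun q => 1 / 2 ^ (0 + q.1.al))
          (fun q => (2 : ℝ) ^ (q.1.sz - 1)) 2 (1 + κ) (by norm_num) (by linarith only [hκ])
          { win := fun e he => by
              have h4 := okv_win (hok2 e he)
              exact ⟨h4.1, by positivity, h4.2⟩
            box := fun e he => ⟨fun i => ((hok2 e he).box i).1, fun i => ((hok2 e he).box i).2⟩
            cel := by
              intro e e' he he' hW s hs y hy i
              have hv : b e = b e' := (Prod.ext_iff.1 hW).1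
              have o1 := hok2 e he
              have o2 := hok2 e' he'
              rw [← hv] at o2
              have hs' : s ∈ win (0 + (b e).al) ((b e).sw 0) := mem_win.2 hs
              have h4 := hnear (b e).c (0 + (b e).al) ((b e).sw 0) (F.l (pr e)) (F.l (pr e'))
                o1.mem o2.mem s hs' i
              have h5 := okv_win o1
              have hs0 : 0 ≤ s := h5.1.trans hs.1
              have hs1 : s ≤ 1 := hs.2.trans h5.2
              have h6 := htube (b e).c.B (F.l (pr e)) s (1 / 2 ^ (J + g)) y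
                (fun k => (o1.box k).1) (fun k => (o1.box k).2) hs0 hs1 (by positivity)
                (by rw [div_le_one (by positivity)]; exact one_le_pow₀ (by norm_num)) hy i
              have h7 : C₄ * 2 ^ dep (b e).c.B * (1 / 2 ^ (J + g)) ≤ 1 := by
                rw [mul_one_div, div_le_one (by positivity)]
                refine le_trans ?_ hb4
                exact mul_le_mul_of_nonneg_left
                  (pow_le_pow_right₀ (by norm_num) (hdepX e he)) (by linarith only [hC₄])
              have e5 : eval (pnt s fun k => lpos (F.l (pr e)) s k + y k) (FB (b e).c.B i) -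
                  eval (pnt s (lpos (F.l (pr e')) s)) (FB (b e).c.B i) =
                  (eval (pnt s fun k => lpos (F.l (pr e)) s k + y k) (FB (b e).c.B i) -
                    eval (pnt s (lpos (F.l (pr e)) s)) (FB (b e).c.B i)) +
                  (eval (pnt s (lpos (F.l (pr e)) s)) (FB (b e).c.B i) -
                    eval (pnt s (lpos (F.l (pr e')) s)) (FB (b e).c.B i)) := by ring
              show |eval (pnt s fun k => lpos (F.l (pr e)) s k + y k) (FB (b e).c.B i) -
                  eval (pnt s (lpos (F.l (pr e')) s)) (FB (b e).c.B i)| ≤ 1 + κ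
              rw [e5]
              refine (abs_add_le _ _).trans ?_
              linarith only [h4, h6, h7]
            pos := fun e _ => by positivity
            jac := by
              intro e he
              obtain ⟨s, hs, hlt⟩ := okv_jac (hok2 e he)
              refine ⟨s, mem_win.1 hs, 0, fun k => by simp, ?_⟩
              have e5 : (fun k => lpos (F.l (pr e)) s k + (0 : Fin m → ℝ) k) =
                  lpos (F.l (pr e)) s := by
                funext k
                simp
              rw [e5]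
              exact hlt.le }
        have e6 : Ex p' (fun e => -Real.log ((2 : ℝ) ^ ((b e).sz - 1)) +
            m * -Real.log (1 / 2 ^ (0 + (b e).al))) = -S + Real.log 2 := by
          have e7 : ∀ e, -Real.log ((2 : ℝ) ^ ((b e).sz - 1)) +
              m * -Real.log (1 / 2 ^ (0 + (b e).al)) =
              -1 * ((((b e).sz : ℝ) - m * (b e).al) * Real.log 2) + Real.log 2 := by
            intro e
            rw [Real.log_zpow, one_div, Real.log_inv, Real.log_pow]
            push_cast
            ring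
          simp only [e7]
          rw [Ex_add, Ex_const hp'.sum_one, Ex_smul, hS]
          ring
        have h3' : CH p' (fun e => fl (J + g) (F.l (pr e)).2) (fun e => (b e, F.Z (pr e))) ≤
            m * (((J + g : ℕ) : ℝ) * Real.log 2) + (-S + Real.log 2) + m * Real.log (1 + κ) + C₁ := by
          rw [← e6]
          exact h3
        have h4 := CH_le_add hp'.nonneg (fun e => fl (J + g) (F.l (pr e)).2) b (fun e => F.Z (pr e))
        have h5 : CH p' (fun e => fl (J + g) (F.l (pr e)).2) (fun e => F.Z (pr e)) =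
            CH F.p (fun ω => fl (J + g) (F.d ω)) F.Z :=
          hpsh.CH_eq (fun ω => fl (J + g) (F.d ω)) F.Z
        have h6 := ch_nz N
        rw [h5] at h4
        push_cast at h3'
        rw [← hH] at h4
        rw [hCF]
        linarith only [h4, h6, h3']
      -- THIN
      exact by
       have h3 : S - H ≤ -(Real.log 2 / n₀ * Dp) + J * ((m + 2) * Real.log 2) + CT := by
         have h4 := hthin Ec N.A F.ζ (Vl m E) p' hp' J g (fun e => N.O (pr e)) (fun e => F.Z (pr e)) b
           (fun e => N.ξ (pr e)) N.l₀ (fun e => F.l (pr e)) (fun v => κ⁻¹ • mB v.c.B)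
           (fun _ => 2 ^ X) (fun v => ((v.sw 0 : ℕ) : ℝ) / 2 ^ (0 + v.al)) (fun v => 1 / 2 ^ (0 + v.al))
           (fun v => (n * κ) ^ m * (2 : ℝ) ^ (1 - v.sz)) (fun v => (dep v.c.B : ℝ) - P.top - c₅) 0
           (fun e e' _ _ h => N.detZ _ _ h) (by
             have h5 : CH p' (fun e => N.ξ (pr e)) (fun e => N.O (pr e)) = CH F.p N.ξ N.O :=
               hpsh.CH_eq N.ξ N.O
             rw [h5, sub_zero]
             exact N.full)
           (fun e _ => ⟨(N.box (pr e)).1, (N.box (pr e)).2, N.line (pr e)⟩)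
           (fun e he => ⟨by positivity, fun i j => by
             rw [Matrix.smul_apply, smul_eq_mul, abs_mul, abs_of_pos (inv_pos.2 hκ0)]
             have h5 : κ⁻¹ ≤ 1 := inv_le_one_of_one_le₀ hκ
             have h6 := mB_le (b e).c.B i j
             have h7 : (2 : ℝ) ^ dep (b e).c.B ≤ 2 ^ X := pow_le_pow_right₀ (by norm_num) (hdepX e he)
             calc κ⁻¹ * |mB (b e).c.B i j| ≤ 1 * 2 ^ X :=
                   mul_le_mul h5 (h6.trans h7) (abs_nonneg _) zero_le_one
               _ = 2 ^ X := one_mul _⟩)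
           (fun e he => by
             have h5 := okv_win (hok2 e he)
             refine ⟨h5.1, ?_, h5.2, by positivity⟩
             refine one_div_le_one_div_of_le (by positivity) (pow_le_pow_right₀ (by norm_num) ?_)
             exact (hok2 e he).wJ)
           (fun e he => by
             refine ⟨hb2, ?_⟩
             refine le_trans ?_ hb3
             refine mul_le_mul_of_nonneg_right ?_ (by positivity)
             refine mul_le_mul_of_nonneg_left ?_ (by linarith only [hC₂])
             rw [hR₀]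
             refine mul_le_mul_of_nonneg_left ?_ (by positivity)
             have h5 := okv_sz hE (hok2 e he)
             rw [← hn, ← hK₀] at h5
             have e5 : (2 : ℝ) ^ (1 - (b e).sz) = 4 * (2 ^ ((b e).sz + 1))⁻¹ := by
               rw [← zpow_neg, show (4 : ℝ) = 2 ^ (2 : ℤ) by norm_num, ← zpow_add₀ (by norm_num)]
               congr 1
               ring
             rw [e5]
             refine mul_le_mul_of_nonneg_left ?_ (by norm_num)
             rw [inv_le_iff_one_le_mul₀ (by positivity)]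
             linarith only [h5])
           (by
             intro e e' he he' _ hv s hs i
             have o1 := hok2 e he
             have o2 := hok2 e' he'
             rw [← hv] at o2
             have hs' : s ∈ win (0 + (b e).al) ((b e).sw 0) := mem_win.2 hs
             have h5 := hnear (b e).c (0 + (b e).al) ((b e).sw 0) (F.l (pr e)) (F.l (pr e'))
               o1.mem o2.mem s hs' i
             have e5 : ∀ z : Option (Fin m) → ℝ, eval z (cmb (κ⁻¹ • mB (b e).c.B) mo i) =
                 κ⁻¹ * eval z (FB (b e).c.B i) := by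
               intro z
               unfold FB cmb
               rw [map_sum, map_sum, Finset.mul_sum]
               refine Finset.sum_congr rfl fun j _ => ?_
               rw [map_mul, map_mul, eval_C, eval_C, Matrix.smul_apply, smul_eq_mul, mul_assoc]
             rw [e5, e5, ← mul_sub, abs_mul, abs_of_pos (inv_pos.2 hκ0)]
             rw [inv_mul_le_iff₀ hκ0, mul_one]
             exact h5)
           (by
             intro e he
             obtain ⟨s, hs, hlt⟩ := okv_jac (hok2 e he)
             refine ⟨s, mem_win.1 hs, ?_⟩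
             have h5 := JF_mul_le (κ • (1 : Matrix (Fin (nJ m E)) (Fin (nJ m E)) ℝ))
               (cmb (κ⁻¹ • mB (b e).c.B) mo) (FB (b e).c.B) (by
                 intro i
                 have e5 : ∀ j, C ((κ • (1 : Matrix (Fin (nJ m E)) (Fin (nJ m E)) ℝ)) i j) *
                     cmb (κ⁻¹ • mB (b e).c.B) mo j = if i = j then FB (b e).c.B i else 0 := by
                   intro j
                   rw [Matrix.smul_apply, Matrix.one_apply, smul_eq_mul]
                   split_ifs with hij
                   · subst hij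
                     rw [mul_one]
                     unfold FB cmb
                     rw [Finset.mul_sum]
                     refine Finset.sum_congr rfl fun j _ => ?_
                     rw [Matrix.smul_apply, smul_eq_mul, ← mul_assoc, ← C_mul, ← mul_assoc,
                       mul_inv_cancel₀ hκ0.ne', one_mul]
                   · rw [mul_zero, C_0, zero_mul]
                 rw [Finset.sum_congr rfl fun j _ => e5 j, Finset.sum_ite_eq]
                 simp) (κ := κ) hκ0.le (by
                 intro i j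
                 rw [Matrix.smul_apply, Matrix.one_apply, smul_eq_mul]
                 split_ifs
                 · rw [mul_one, abs_of_pos hκ0]
                 · rw [mul_zero, abs_zero]
                   exact hκ0.le) (pnt s (lpos (F.l (pr e)) s))
             rw [← hn] at h5
             have e5 : (2 : ℝ) ^ (1 - (b e).sz) = (2 ^ ((b e).sz - 1))⁻¹ := by
               rw [← zpow_neg]
               congr 1
               ring
             rw [e5, one_div, mul_inv, inv_inv]
             have h6 := hlt.le.trans h5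
             rw [inv_mul_le_iff₀ (by positivity)]
             exact h6)
           (by
             intro e he
             obtain ⟨i, j, hij⟩ := mB_ge hnJ (b e).c.B (hok2 e he).top
             refine ⟨i, j, ?_⟩
             rw [Matrix.smul_apply, smul_eq_mul, abs_mul, abs_of_pos (inv_pos.2 hκ0)]
             have e5 : (2 : ℝ) ^ ((dep (b e).c.B : ℝ) - P.top - c₅) =
                 κ⁻¹ * ((2 : ℝ) ^ (((dep (b e).c.B : ℕ) : ℤ) - (P.top : ℤ)) / n) := by
               rw [Real.rpow_sub (by norm_num), hc₅2, ← Real.rpow_intCast]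
               push_cast
               field_simp
             rw [e5]
             refine mul_le_mul_of_nonneg_left ?_ (inv_pos.2 hκ0).le
             rw [hn]
             exact hij)
         have e6 : Ex p' (fun e => ((dep (b e).c.B : ℝ) - P.top - c₅) / ((m + 1) * E * m : ℕ) *
             Real.log 2 + m * Real.log (1 / 2 ^ (0 + (b e).al)) -
             Real.log ((n * κ) ^ m * (2 : ℝ) ^ (1 - (b e).sz))) =
             Real.log 2 / n₀ * Dp - (P.top + c₅) / n₀ * Real.log 2 + S - Real.log 2 -
               m * Real.log (n * κ) := by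
           have e7 : ∀ e, ((dep (b e).c.B : ℝ) - P.top - c₅) / ((m + 1) * E * m : ℕ) *
               Real.log 2 + m * Real.log (1 / 2 ^ (0 + (b e).al)) -
               Real.log ((n * κ) ^ m * (2 : ℝ) ^ (1 - (b e).sz)) =
               (Real.log 2 / n₀ * (dep (b e).c.B : ℝ) +
                 (((b e).sz : ℝ) - m * (b e).al) * Real.log 2) +
               (-((P.top + c₅) / n₀ * Real.log 2) - Real.log 2 - m * Real.log (n * κ)) := by
             intro e
             rw [← hn₀, Real.log_mul (by positivity) (by positivity), Real.log_zpow, one_div,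
               Real.log_inv, Real.log_pow, Real.log_pow]
             push_cast
             ring
           simp only [e7]
           rw [Ex_add, Ex_const hp'.sum_one, Ex_add, Ex_smul, hS, hDp]
           ring
         have h4' : Real.log 2 / n₀ * Dp - (P.top + c₅) / n₀ * Real.log 2 + S - Real.log 2 -
               m * Real.log (n * κ) ≤ H + (J * (m + 2) : ℝ) * Real.log 2 + C₂ + 0 := by
           rw [← e6, hH]
           exact h4
         have h5 : (P.top + c₅) / n₀ * Real.log 2 ≤ (P.top + c₅) * Real.log 2 :=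
           mul_le_mul_of_nonneg_right (div_le_self (by positivity) hn₀1) hlog2.le
         rw [hCT]
         linarith only [h4', h5]
       -- together
       exact by
        obtain ⟨Q, hQ⟩ : ∃ Q : ℝ, Q = m * (J * Real.log 2) - CH F.p (F.D J) F.Z := ⟨_, rfl⟩
        have hQ0 : -(m * Real.log 7) ≤ Q := by
          rw [hQ]
          linarith only [ch_dir_le F]
        rw [← hQ] at h2
        rw [← hQ]
        have h4 := mul_le_mul_of_nonneg_left h3 hlam0
        have h5 := mul_le_mul_of_nonneg_left h2 (sub_nonneg.2 hl1)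
        have hJ0 : (0 : ℝ) ≤ J := Nat.cast_nonneg J
        have h6 : lam * (J * ((m + 2) * Real.log 2)) ≤ ε * J := by
          calc lam * (J * ((m + 2) * Real.log 2)) = lam * ((m + 2) * Real.log 2) * J := by ring
            _ ≤ ε * J := mul_le_mul_of_nonneg_right hlε hJ0
        have h7 : -(lam * Q) ≤ m * Real.log 7 := by
          have h8 := mul_le_mul_of_nonneg_left hQ0 hlam0
          have h9 : lam * (m * Real.log 7) ≤ 1 * (m * Real.log 7) :=
            mul_le_mul_of_nonneg_right hl1 (by positivity)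
          linarith only [h8, h9]
        have h8 : lam * CT ≤ 1 * CT := mul_le_mul_of_nonneg_right hl1 hCT0
        have h9 : (1 - lam) * CF ≤ 1 * CF := mul_le_mul_of_nonneg_right (by linarith only [hlam0]) hCF0
        have e8 : lam * Real.log 2 / n₀ * Dp = lam * (Real.log 2 / n₀ * Dp) := by ring
        rw [e8] at h1
        have e9 : lam * (-(Real.log 2 / n₀ * Dp) + J * ((m + 2) * Real.log 2) + CT) =
            -(lam * (Real.log 2 / n₀ * Dp)) + lam * (J * ((m + 2) * Real.log 2)) + lam * CT := by ring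
        have e10 : (1 - lam) * (Q + CF) = Q - lam * Q + (1 - lam) * CF := by ring
        have e11 : lam * (S - H) + (1 - lam) * (S - H) = S - H := by ring
        linarith only [h1, h4, h5, h6, h7, h8, h9]

end Pool.KNW
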