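import Pool.Agent.H53.KNW.Wrp
import Pool.Agent.H53.BE.ThinM
import Pool.Agent.H32.BJ.Ent
import Pool.Agent.H96.GEO.Cls

/-!
# The end of the walk for the class of the bodies, pure part

The functions of a body along a line, their bounds on a window from the values at the nodes, the
entries of the matrix of a body, the lower bound for the Jacobian.
-/

set_option autoImplicit false

namespace Pool.KNW

open Finset MvPolynomial
open Pool.LAT (Bd Sp)
open Pool.SH (Ln lpos)
open Pool.GEN (pnt)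
open Pool.BJ (Ix mon dM mnr jm JF JF_mul_le le_jm nd nd_mem lag_nodes)
open Pool.KNB (Jx nJ mo cmb ev)
open Pool.GC
open Pool.THIN (cv deg_cv exists_line cv_le)

variable {m E N : ℕ}

theorem inner_sp (x y : Sp N) : inner ℝ x y = ∑ b, x b * y b := by
  rw [PiLp.inner_apply]
  refine Finset.sum_congr rfl fun b _ => ?_
  simp [mul_comm]

/-- The functions of a body. -/
theorem eval_FB (B : Bd (nJ m E)) (a : Fin (nJ m E)) (s : ℝ) (x : Fin m → ℝ) :
    eval (pnt s x) (FB B a) = B.fn a (Pool.GC.phi E s x) := by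
  rw [Pool.LAT.Bd.fn_apply, inner_sp, Finset.mul_sum]
  unfold FB cmb
  rw [map_sum]
  refine Finset.sum_congr rfl fun b _ => ?_
  rw [map_mul, eval_C]
  unfold mB Pool.GC.phi
  simp only [Matrix.of_apply]
  ring

theorem deg_FB (B : Bd (nJ m E)) (a : Fin (nJ m E)) : (FB B a).totalDegree ≤ (m + 1) * E :=
  deg_cv (mB B a)

/-- A bound on a window from the values at the nodes. -/
theorem nod_bd (D : ℕ) : ∃ C : ℝ, 1 ≤ C ∧ ∀ (p : Polynomial ℝ), p.natDegree ≤ D →
    ∀ (w t : ℕ) (κ : ℝ), (∀ i, |p.eval (nod D w t i)| ≤ κ) → ∀ s ∈ win w t, |p.eval s| ≤ C * κ := by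
  obtain ⟨C, hC, h⟩ := lag_nodes D (D + 1)
  refine ⟨C, hC, ?_⟩
  intro p hp w t κ hκ s hs
  have hw : (0 : ℝ) < 2 ^ w := by positivity
  obtain ⟨q, hq⟩ : ∃ q : Polynomial ℝ, q = p.comp (Polynomial.C ((t : ℝ) / 2 ^ w) +
      Polynomial.C (1 / 2 ^ w) * Polynomial.X) := ⟨_, rfl⟩
  have hqe : ∀ τ : ℝ, q.eval τ = p.eval (((t : ℝ) + τ) / 2 ^ w) := by
    intro τ
    rw [hq, Polynomial.eval_comp]
    congr 1
    simp only [Polynomial.eval_add, Polynomial.eval_C, Polynomial.eval_mul, Polynomial.eval_X]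
    ring
  have hqd : q.natDegree ≤ D := by
    rw [hq]
    refine Polynomial.natDegree_comp_le.trans ?_
    have h1 : (Polynomial.C ((t : ℝ) / 2 ^ w) +
        Polynomial.C (1 / 2 ^ w) * Polynomial.X : Polynomial ℝ).natDegree ≤ 1 := by
      refine (Polynomial.natDegree_add_le _ _).trans (max_le ?_ ?_)
      · rw [Polynomial.natDegree_C]
        exact Nat.zero_le _
      · exact (Polynomial.natDegree_C_mul_le _ _).trans Polynomial.natDegree_X_le
    calc p.natDegree * _ ≤ D * 1 := Nat.mul_le_mul hp h1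
      _ = D := mul_one D
  have h1 := h q hqd Finset.univ (by simp) κ (by
    intro i _
    rw [hqe]
    have h2 := hκ i
    unfold nod at h2
    unfold nd
    push_cast
    exact h2) (2 ^ w * s - t) (by
    unfold win at hs
    have h3 := (div_le_iff₀ hw).1 hs.1
    have h4 := (le_div_iff₀ hw).1 hs.2
    constructor
    · linarith
    · linarith)
  rw [hqe] at h1
  have e : ((t : ℝ) + (2 ^ w * s - t)) / 2 ^ w = s := by
    field_simp
    ring
  rwa [e] at h1

/-- Two lines of a cell are close on the window. -/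
theorem cel_near (m E : ℕ) : ∃ C : ℝ, 1 ≤ C ∧ ∀ (c : Cel m E) (w t : ℕ) (x x' : Ln m),
    c.mem 1 w t x → c.mem 1 w t x' → ∀ s ∈ win w t, ∀ a,
      |eval (pnt s (lpos x s)) (FB c.B a) - eval (pnt s (lpos x' s)) (FB c.B a)| ≤ C := by
  obtain ⟨C, hC, h⟩ := nod_bd (dD m E)
  refine ⟨C * 2, by linarith, ?_⟩
  intro c w t x x' hx hx' s hs a
  have hline : ∀ y : Ln m, ∃ q : Polynomial ℝ, q.natDegree ≤ dD m E ∧
      ∀ τ, q.eval τ = eval (pnt τ (lpos y τ)) (FB c.B a) := by
    intro y
    obtain ⟨q, hq, hqe⟩ := exists_line (FB c.B a) (deg_FB c.B a) (pnt 0 y.1) (pnt 1 y.2)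
    refine ⟨q, hq, fun τ => ?_⟩
    rw [hqe]
    congr 2
    funext o
    cases o with
    | none =>
      show (0 : ℝ) + τ * 1 = τ
      ring
    | some k => rfl
  obtain ⟨q, hq, hqe⟩ := hline x
  obtain ⟨q', hq', hqe'⟩ := hline x'
  have h1 := h (q - q') ((Polynomial.natDegree_sub_le _ _).trans (max_le hq hq')) w t 2 (by
    intro i
    rw [Polynomial.eval_sub, hqe, hqe', eval_FB, eval_FB]
    have h2 := hx i a
    have h3 := hx' i a
    unfold phl at h2 h3
    have e : ∀ u v z : ℝ, u - v = (u - z) - (v - z) := fun u v z => by ring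
    rw [e _ _ (c.cd i a : ℝ)]
    refine (abs_sub _ _).trans ?_
    linarith) s hs
  rwa [Polynomial.eval_sub, hqe, hqe'] at h1

/-! ### The entries of the matrix of a body -/

theorem coord_le (B : Bd N) (i j : Fin N) : |B.e i j| ≤ 1 := by
  have h1 := PiLp.norm_apply_le (B.e i) j
  rw [B.e.norm_eq_one, Real.norm_eq_abs] at h1
  exact h1

theorem inv_s_le (B : Bd N) (i : Fin N) : (B.s i)⁻¹ ≤ (2 : ℝ) ^ dep B := by
  unfold Bd.s
  rw [← zpow_neg, ← zpow_natCast]
  refine zpow_le_zpow_right₀ (by norm_num) ?_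
  have h1 : (-B.r i).toNat ≤ dep B := Finset.le_sup (f := fun i => (-B.r i).toNat) (Finset.mem_univ i)
  have h2 := Int.self_le_toNat (-B.r i)
  omega

theorem mB_le (B : Bd N) (i j : Fin N) : |mB B i j| ≤ (2 : ℝ) ^ dep B := by
  unfold mB
  rw [Matrix.of_apply, abs_mul, abs_of_pos (inv_pos.2 (B.s_pos i))]
  calc (B.s i)⁻¹ * |B.e i j| ≤ (2 : ℝ) ^ dep B * 1 :=
        mul_le_mul (inv_s_le B i) (coord_le B i j) (abs_nonneg _) (by positivity)
    _ = _ := mul_one _

/-- Some entry is large. -/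
theorem mB_ge (hN : 0 < N) (B : Bd N) {top : ℕ} (htop : ∀ i, B.r i ≤ top) :
    ∃ i j, (2 : ℝ) ^ (((dep B : ℕ) : ℤ) - top) / N ≤ |mB B i j| := by
  have hne : (Finset.univ : Finset (Fin N)).Nonempty := ⟨⟨0, hN⟩, Finset.mem_univ _⟩
  obtain ⟨i, -, hi⟩ := Finset.exists_mem_eq_sup Finset.univ hne (fun i => (-B.r i).toNat)
  have hdep : dep B = (-B.r i).toNat := hi
  have hN0 : (0 : ℝ) < N := by exact_mod_cast hN
  obtain ⟨j, hj⟩ : ∃ j, 1 / (N : ℝ) ≤ |B.e i j| := by
    by_contra hcon
    push Not at hcon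
    have h1 : ∑ j, B.e i j * B.e i j = 1 := by
      rw [← inner_sp, real_inner_self_eq_norm_sq, B.e.norm_eq_one]
      norm_num
    have h2 : ∑ j, B.e i j * B.e i j < ∑ _j : Fin N, 1 / (N : ℝ) := by
      refine Finset.sum_lt_sum_of_nonempty hne fun j _ => ?_
      have h3 := hcon j
      have h4 := coord_le B i j
      have h5 : B.e i j * B.e i j = |B.e i j| * |B.e i j| := (abs_mul_abs_self _).symm
      rw [h5]
      nlinarith [abs_nonneg (B.e i j)]
    rw [h1, Finset.sum_const, Finset.card_univ, Fintype.card_fin, nsmul_eq_mul] at h2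
    have : (N : ℝ) * (1 / N) = 1 := by field_simp
    linarith
  refine ⟨i, j, ?_⟩
  unfold mB
  rw [Matrix.of_apply, abs_mul, abs_of_pos (inv_pos.2 (B.s_pos i)), div_eq_mul_one_div]
  refine mul_le_mul ?_ hj (by positivity) (inv_pos.2 (B.s_pos i)).le
  unfold Bd.s
  rw [← zpow_neg]
  refine zpow_le_zpow_right₀ (by norm_num) ?_
  have h6 := htop i
  rw [hdep]
  omega

/-! ### The Jacobian from below -/

/-- The columns of an orthonormal basis. -/
theorem col_ortho (B : Bd N) (b c : Fin N) :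
    ∑ a, B.e a b * B.e a c = if b = c then 1 else 0 := by
  classical
  have h1 := B.e.sum_repr' (EuclideanSpace.single b (1 : ℝ))
  have h2 := congrArg (fun v : Sp N => v c) h1
  simp only at h2
  have e1 : (∑ a, (inner ℝ (B.e a) (EuclideanSpace.single b (1 : ℝ))) • B.e a : Sp N) c =
      ∑ a, B.e a b * B.e a c := by
    rw [WithLp.ofLp_sum, Finset.sum_apply]
    refine Finset.sum_congr rfl fun a _ => ?_
    have e2 : inner ℝ (B.e a) (EuclideanSpace.single b (1 : ℝ)) = B.e a b := by
      rw [inner_sp, Finset.sum_eq_single b]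
      · simp
      · intro d _ hd
        simp [hd]
      · intro h
        exact absurd (Finset.mem_univ b) h
    rw [e2]
    rfl
  rw [e1] at h2
  rw [h2]
  simp only [PiLp.single_apply]
  by_cases h : b = c
  · rw [if_pos h, if_pos h.symm]
  · rw [if_neg h, if_neg fun h' => h h'.symm]

/-- The exponent of a coordinate. -/
def xI (hE : 1 ≤ E) (i : Fin m) : Jx m E :=
  ⟨fun o => if o = some i then ⟨1, by omega⟩ else 0, i, by
    simp only [if_true]
    intro h
    exact absurd (congrArg Fin.val h) (by simp)⟩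

theorem mo_xI (hE : 1 ≤ E) (i : Fin m) :
    (mo (Fintype.equivFin (Jx m E) (xI hE i)) : MvPolynomial (Option (Fin m)) ℝ) = X (some i) := by
  classical
  unfold mo
  rw [Equiv.symm_apply_apply]
  unfold mon
  rw [Finset.prod_eq_single (some i)]
  · simp [xI]
  · intro o _ ho
    simp [xI, ho]
  · intro h
    exact absurd (Finset.mem_univ _) h

theorem one_le_JF_mo (hE : 1 ≤ E) (z : Option (Fin m) → ℝ) :
    1 ≤ JF (mo : Fin (nJ m E) → MvPolynomial (Option (Fin m)) ℝ) z := by
  classical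
  have h1 := le_jm (dM (mo : Fin (nJ m E) → MvPolynomial (Option (Fin m)) ℝ) z)
    (fun i => Fintype.equivFin (Jx m E) (xI hE i))
  refine le_trans (le_of_eq ?_) h1
  have h2 : (Matrix.of fun i j => dM (mo : Fin (nJ m E) → MvPolynomial (Option (Fin m)) ℝ) z
      (Fintype.equivFin (Jx m E) (xI hE i)) j) = (1 : Matrix (Fin m) (Fin m) ℝ) := by
    ext i j
    show eval z (pderiv (some j) (mo (Fintype.equivFin (Jx m E) (xI hE i)))) =
      (1 : Matrix (Fin m) (Fin m) ℝ) i j
    rw [mo_xI, Matrix.one_apply]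
    by_cases h : i = j
    · subst h
      rw [if_pos rfl, pderiv_X_self, map_one]
    · rw [if_neg h, pderiv_X_of_ne (by simpa using h), map_zero]
  unfold mnr
  rw [h2, Matrix.det_one, abs_one]

/-- **The Jacobian of a body of bounded sides is not small.** -/
theorem one_le_JF (hE : 1 ≤ E) (B : Bd (nJ m E)) {top : ℕ} (htop : ∀ i, B.r i ≤ top)
    (z : Option (Fin m) → ℝ) : 1 ≤ ((nJ m E : ℝ) * 2 ^ top) ^ m * JF (FB B) z := by
  classical
  refine (one_le_JF_mo hE z).trans ?_
  refine JF_mul_le (Matrix.of fun b a => B.s a * B.e a b) (FB B) mo ?_ (by positivity) ?_ z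
  · intro b
    have h1 : ∀ a, C ((Matrix.of fun b a => B.s a * B.e a b) b a) * FB B a =
        ∑ c, C (B.e a b * B.e a c) * (mo c : MvPolynomial (Option (Fin m)) ℝ) := by
      intro a
      unfold FB cmb
      rw [Finset.mul_sum]
      refine Finset.sum_congr rfl fun c _ => ?_
      unfold mB
      rw [Matrix.of_apply, Matrix.of_apply, ← mul_assoc, ← C_mul]
      have h2 : B.s a * B.e a b * ((B.s a)⁻¹ * B.e a c) = B.e a b * B.e a c := by
        have := (B.s_pos a).ne'
        field_simp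
      rw [h2]
    rw [Finset.sum_congr rfl fun a _ => h1 a, Finset.sum_comm]
    have h3 : ∀ c, ∑ a, C (B.e a b * B.e a c) * (mo c : MvPolynomial (Option (Fin m)) ℝ) =
        if b = c then mo c else 0 := by
      intro c
      rw [← Finset.sum_mul, ← map_sum, col_ortho]
      split_ifs
      · rw [map_one, one_mul]
      · rw [map_zero, zero_mul]
    rw [Finset.sum_congr rfl fun c _ => h3 c, Finset.sum_ite_eq]
    simp
  · intro b a
    rw [Matrix.of_apply, abs_mul, abs_of_pos (B.s_pos a)]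
    have h1 : B.s a ≤ 2 ^ top := by
      unfold Bd.s
      rw [← zpow_natCast]
      exact zpow_le_zpow_right₀ (by norm_num) (htop a)
    calc B.s a * |B.e a b| ≤ 2 ^ top * 1 :=
          mul_le_mul h1 (coord_le B a b) (abs_nonneg _) (by positivity)
      _ = 2 ^ top := mul_one _

end Pool.KNW
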