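import Pool.Agent.H53.KNW.EndA

/-!
# The entropy of the directions of a family with a noise

The digits of the directions below the resolution are uniform.
-/

set_option autoImplicit false

namespace Pool.KNW

open Finset Real
open Pool.Agent.H49.Ent Pool.Agent.H32.Dense Pool.STK Pool.KA
open Pool.THIN (Nz gl)

variable {m J g : ℕ}

theorem floor_coarse {J g : ℕ} {x y : ℝ} (h : ⌊(2 : ℝ) ^ (J + g) * x⌋ = ⌊(2 : ℝ) ^ (J + g) * y⌋) :
    ⌊(2 : ℝ) ^ J * x⌋ ≤ ⌊(2 : ℝ) ^ J * y⌋ := by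
  have hg : (0 : ℝ) < 2 ^ g := by positivity
  refine Int.le_floor.2 ?_
  have h1 : (⌊(2 : ℝ) ^ J * x⌋ : ℝ) ≤ 2 ^ J * x := Int.floor_le _
  have h2 : (⌊(2 : ℝ) ^ J * x⌋ * 2 ^ g : ℤ) ≤ ⌊(2 : ℝ) ^ (J + g) * x⌋ := by
    refine Int.le_floor.2 ?_
    push_cast
    rw [pow_add]
    nlinarith
  rw [h] at h2
  have h3 : ((⌊(2 : ℝ) ^ J * x⌋ * 2 ^ g : ℤ) : ℝ) ≤ 2 ^ (J + g) * y :=
    (Int.cast_le.2 h2).trans (Int.floor_le _)
  push_cast at h3
  rw [pow_add] at h3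
  have h4 : (⌊(2 : ℝ) ^ J * x⌋ : ℝ) * 2 ^ g ≤ (2 ^ J * y) * 2 ^ g := by linarith
  exact le_of_mul_le_mul_right h4 hg

theorem fl_coarse {J g : ℕ} {x y : Fin m → ℝ} (h : fl (J + g) x = fl (J + g) y) :
    fl J x = fl J y := by
  funext k
  have h1 : ⌊(2 : ℝ) ^ (J + g) * x k⌋ = ⌊(2 : ℝ) ^ (J + g) * y k⌋ := congrFun h k
  exact le_antisymm (floor_coarse h1) (floor_coarse h1.symm)

/-- **The digits of the directions below the resolution.** -/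
theorem ch_nz {F : Fam m J} (N : Nsy g F) :
    CH F.p (F.D J) F.Z + (m * g : ℝ) * Real.log 2 ≤
      CH F.p (fun ω => fl (J + g) (F.d ω)) F.Z + m * Real.log 3 := by
  have hp := F.isLaw.nonneg
  have hJg : (0 : ℝ) < 2 ^ (J + g) := by positivity
  have hg : (0 : ℝ) < 2 ^ g := by positivity
  have hd : ∀ ω k, (2 : ℝ) ^ (J + g) * F.d ω k =
      2 ^ (J + g) * (N.l₀ (N.O ω)).2 k + (((N.ξ ω).2 k : ℕ) : ℝ) := by
    intro ω k
    have h1 := congrFun (congrArg Prod.snd (N.line ω)) k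
    have h2 : F.d ω k = (N.l₀ (N.O ω)).2 k + (((N.ξ ω).2 k : ℕ) : ℝ) / 2 ^ (J + g) := h1
    rw [h2]
    field_simp
  have h1 : CH F.p (F.D J) F.Z + CH F.p (fun ω => fl (J + g) (F.d ω)) (fun ω => (F.D J ω, F.Z ω)) ≤
      CH F.p (fun ω => fl (J + g) (F.d ω)) F.Z := by
    rw [← CH_chain hp]
    refine CH_mono_left hp ?_
    intro a b _ _ hab
    have h2 : fl (J + g) (F.d a) = fl (J + g) (F.d b) := (Prod.ext_iff.1 hab).1
    exact Prod.ext h2 (fl_coarse h2)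
  have h2 : CH F.p (fun ω => fl (J + g) (F.d ω)) (fun ω => (F.D J ω, N.O ω)) ≤
      CH F.p (fun ω => fl (J + g) (F.d ω)) (fun ω => (F.D J ω, F.Z ω)) := by
    refine CH_mono_cond hp ?_
    intro a b _ _ hab
    exact Prod.ext (Prod.ext_iff.1 hab).1 (N.detZ a b (Prod.ext_iff.1 hab).2)
  have h3 : CH F.p (fun ω => (N.ξ ω).2) (fun ω => (F.D J ω, N.O ω)) ≤
      CH F.p (fun ω => fl (J + g) (F.d ω)) (fun ω => (F.D J ω, N.O ω)) := by
    refine CH_mono_left hp ?_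
    intro a b _ _ hab
    have e1 : fl (J + g) (F.d a) = fl (J + g) (F.d b) := (Prod.ext_iff.1 hab).1
    have e2 : N.O a = N.O b := (Prod.ext_iff.1 (Prod.ext_iff.1 hab).2).2
    funext k
    have e3 : ⌊(2 : ℝ) ^ (J + g) * F.d a k⌋ = ⌊(2 : ℝ) ^ (J + g) * F.d b k⌋ := congrFun e1 k
    rw [hd, hd, e2, Int.floor_add_natCast, Int.floor_add_natCast] at e3
    exact Fin.ext (by
      have := add_left_cancel e3
      exact_mod_cast this)
  have h4 := CH_le_add hp (fun ω => (N.ξ ω).2) (F.D J) N.O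
  have h5 : CH F.p (F.D J) N.O ≤ m * Real.log 3 := by
    have h6 := CH_le_vec hp F.isLaw.sum_one (F.D J) N.O (fun _ => 1) (by
      intro a b _ _ hab k
      have e : (2 : ℝ) ^ J * F.d a k - 2 ^ J * F.d b k =
          ((((N.ξ a).2 k : ℕ) : ℝ) - (((N.ξ b).2 k : ℕ) : ℝ)) / 2 ^ g := by
        have e1 := hd a k
        have e2 := hd b k
        rw [hab] at e1
        rw [eq_div_iff hg.ne']
        rw [pow_add] at e1 e2
        linarith
      have ha : ((((N.ξ a).2 k : ℕ) : ℝ)) < 2 ^ g := by exact_mod_cast ((N.ξ a).2 k).2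
      have hb : ((((N.ξ b).2 k : ℕ) : ℝ)) < 2 ^ g := by exact_mod_cast ((N.ξ b).2 k).2
      have ha0 : (0 : ℝ) ≤ (((N.ξ a).2 k : ℕ) : ℝ) := Nat.cast_nonneg _
      have hb0 : (0 : ℝ) ≤ (((N.ξ b).2 k : ℕ) : ℝ) := Nat.cast_nonneg _
      have e1 : (2 : ℝ) ^ J * F.d a k - 2 ^ J * F.d b k < 1 := by
        rw [e, div_lt_one hg]
        linarith
      have e2 : -1 < (2 : ℝ) ^ J * F.d a k - 2 ^ J * F.d b k := by
        rw [e, lt_div_iff₀ hg]
        linarith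
      have f1 := Int.floor_le ((2 : ℝ) ^ J * F.d a k)
      have f2 := Int.lt_floor_add_one ((2 : ℝ) ^ J * F.d a k)
      have f3 := Int.floor_le ((2 : ℝ) ^ J * F.d b k)
      have f4 := Int.lt_floor_add_one ((2 : ℝ) ^ J * F.d b k)
      have g1 : ((⌊(2 : ℝ) ^ J * F.d a k⌋ - ⌊(2 : ℝ) ^ J * F.d b k⌋ : ℤ) : ℝ) < 2 := by
        push_cast
        linarith
      have g2 : (-2 : ℝ) < ((⌊(2 : ℝ) ^ J * F.d a k⌋ - ⌊(2 : ℝ) ^ J * F.d b k⌋ : ℤ) : ℝ) := by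
        push_cast
        linarith
      have g3 : (⌊(2 : ℝ) ^ J * F.d a k⌋ - ⌊(2 : ℝ) ^ J * F.d b k⌋ : ℤ) < 2 := by exact_mod_cast g1
      have g4 : (-2 : ℤ) < (⌊(2 : ℝ) ^ J * F.d a k⌋ - ⌊(2 : ℝ) ^ J * F.d b k⌋ : ℤ) := by
        exact_mod_cast g2
      have g5 : |(⌊(2 : ℝ) ^ J * F.d a k⌋ - ⌊(2 : ℝ) ^ J * F.d b k⌋ : ℤ)| ≤ 1 := by
        rw [abs_le]
        constructor <;> omega
      have g6 : F.D J a k - F.D J b k = ⌊(2 : ℝ) ^ J * F.d a k⌋ - ⌊(2 : ℝ) ^ J * F.d b k⌋ := rfl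
      rw [g6]
      exact_mod_cast g5)
    rw [Ex_const F.isLaw.sum_one] at h6
    have e : (2 : ℝ) * 1 + 1 = 3 := by norm_num
    rwa [e] at h6
  have h6 : CH F.p N.ξ N.O ≤ CH F.p (fun ω => (N.ξ ω).1) N.O + CH F.p (fun ω => (N.ξ ω).2) N.O :=
    CH_subadd hp (fun ω => (N.ξ ω).1) (fun ω => (N.ξ ω).2) N.O
  have h7 : CH F.p (fun ω => (N.ξ ω).1) N.O ≤ (m * g : ℝ) * Real.log 2 := by
    have h8 := CH_le_card hp F.isLaw.sum_one (fun ω => (N.ξ ω).1) N.O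
      (fun _ => (Finset.univ : Finset (Fin m → Fin (2 ^ g)))) fun ω _ => Finset.mem_univ _
    rw [Ex_const F.isLaw.sum_one, Finset.card_univ, Fintype.card_fun, Fintype.card_fin,
      Fintype.card_fin] at h8
    push_cast at h8
    rw [← pow_mul, Real.log_pow] at h8
    push_cast at h8
    linarith
  have h8 := N.full
  linarith

end Pool.KNW
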