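import Pool.Agent.H53.KNW.Wrp
import Pool.Agent.H15.KNH.Fin

/-!
# The four inputs with the ends for the families with a noise
-/

set_option autoImplicit false

namespace Pool.KNW

open Finset Real
open Pool.Agent.H49.Ent Pool.Agent.H32.Dense Pool.STK Pool.KA
open Pool.KM7 (Nng Psh P2 P2_isLaw P2_fst P2_snd P2_pos avg_Ex avg_CH cond_isLaw BL Lv fbl gibbs)
open Pool.KN (co Adm fN nng_fN co_one BNStmt)
open Pool.KNH

variable {m : ℕ}

theorem endsNs_mono {S : Pool.KN5.LSys m} {ε ε' : ℝ} (hε : ε ≤ ε') (h : EndsNs m ε S) :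
    EndsNs m ε' S := by
  obtain ⟨gg, C, hC, h⟩ := h
  refine ⟨gg, C, hC, fun J F hF => ?_⟩
  obtain ⟨c, k, a, r₀, h1, h2, h3, h4⟩ := h J F hF
  refine ⟨c, k, a, r₀, h1, h2, fun θ d hθ => ?_, fun a' θ x ha hθ hx => ?_⟩
  · refine S.mono 0 le_rfl (fun z v => (add_zero _).ge) ?_ (h3 θ d hθ)
    have := mul_le_mul_of_nonneg_right hε (Nat.cast_nonneg (α := ℝ) J)
    linarith
  · have h5 := h4 a' θ x ha hθ hx
    have := mul_le_mul_of_nonneg_right hε (show (0 : ℝ) ≤ (J : ℝ) + a' by positivity)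
    linarith

/-- **What has to be proved for the class of labels**: `PotBStmt` with the ends asked only for
the families with a noise. -/
def PotBsStmt (m : ℕ) : Prop :=
  ∀ δ : ℝ, 0 < δ → ∃ κ σ ρ : ℝ, 0 < σ ∧ 2 * σ < κ ∧ κ ≤ δ ∧ 0 ≤ ρ ∧ 8 * (m + 3) * ρ ≤ σ ∧
    ∃ (L : LB m) (G : GS L.Cx L.V) (A C ς₀ : ℝ) (g l₀ : ℕ), 0 ≤ A ∧ 0 ≤ C ∧ 0 < ς₀ ∧
      L.Geo G C g ∧ L.Turn G A ρ C σ κ ς₀ g l₀ ∧
      (∀ ε : ℝ, 0 < ε → ∃ G₁ r₁ : ℕ, L.Box κ ε g G₁ r₁) ∧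
      EndsNs m δ L.sys

/-- **From the four inputs to the class of labels with localisation.** -/
theorem potTs_of_potBs (h : PotBsStmt m) : PotTsStmt m := by
  intro δ hδ
  obtain ⟨δ', hδ'⟩ : ∃ δ', δ' = min δ 1 / 4 := ⟨_, rfl⟩
  have hδ'0 : 0 < δ' := by
    rw [hδ']
    positivity
  have hδ'1 : 4 * δ' ≤ δ := by
    rw [hδ']
    have := min_le_left δ 1
    linarith
  have hδ'2 : δ' ≤ 1 := by
    rw [hδ']
    have := min_le_right δ 1
    linarith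
  obtain ⟨κ, σ, ρ, hσ, hσκ, hκδ, hρ, hρσ, L, G, A, C, ς₀, g, l₀, hA, hC, hς₀, hG, hT, hBx, hE⟩ :=
    h δ' hδ'0
  have hκ0 : 0 ≤ κ := by linarith
  have hAm : 0 < (A + 1) * ((m : ℝ) + 3) := by positivity
  obtain ⟨ε, hε⟩ : ∃ ε, ε = σ / (64 * ((A + 1) * (m + 3))) := ⟨_, rfl⟩
  have hε0 : 0 < ε := by
    rw [hε]
    positivity
  have hεσ : 64 * ((A + 1) * (m + 3)) * ε ≤ σ := by
    rw [hε]
    field_simp
    exact le_refl _
  obtain ⟨G₁, r₁, η, hη, hB⟩ := hBx ε hε0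
  obtain ⟨C', hC'⟩ : ∃ C', C' = 2 * (2 * C + 3) := ⟨_, rfl⟩
  have hC'6 : 6 ≤ C' := by
    rw [hC']
    linarith
  have hl2 : 0 < Real.log 2 := Real.log_pos (by norm_num)
  have hnn : 0 ≤ ndc m κ := by
    unfold ndc
    positivity
  refine ⟨L.sys, κ, C', 3 * C' * (Real.log (2 + (4 * A + 4 * A *
      (ndc m κ + Real.log 2)) + 6 * (2 * C + 12 * A)) + 1) + C + Real.log 2,
      6 * C' / ς₀ + l₀, 2 * σ, G₁ + 2 * g, by linarith, ?_, by linarith, hσκ,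
      locz_mono (by omega) (locz_of hG hT hC hA hκ0 hς₀ (by linarith) hC'.ge),
      endsNs_mono (by linarith) hE, η, hη, fun K hK => ?_⟩
  · have h1 : 0 ≤ Real.log (2 + (4 * A + 4 * A *
      (ndc m κ + Real.log 2)) + 6 * (2 * C + 12 * A)) := by
      refine Real.log_nonneg ?_
      have : 0 ≤ (4 * A + 4 * A * (ndc m κ + Real.log 2)) + 6 * (2 * C + 12 * A) := by positivity
      linarith
    positivity
  obtain ⟨θ, hθ, R₀, hB⟩ := hB K hK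
  obtain ⟨Λ, hΛ⟩ : ∃ Λ, Λ = 1 + (ndc m κ + 2 * σ) / θ := ⟨_, rfl⟩
  have hΛ1 : 1 ≤ Λ := by
    rw [hΛ]
    have : 0 ≤ (ndc m κ + 2 * σ) / θ := by positivity
    linarith
  obtain ⟨N₁, hN₁⟩ := exists_nat_ge (C' * (1 + Λ) / σ)
  obtain ⟨N₂, hN₂⟩ := exists_nat_ge (6 * (C' * (1 + Λ)) / ς₀)
  obtain ⟨N₃, hN₃⟩ := exists_nat_ge (16 * ((A + 1) * (m + 3)) *
    (5 * (1 + Λ) + 16 * (C' * (1 + Λ)) * r₁) / σ)
  obtain ⟨N₄, hN₄⟩ := exists_nat_ge (8 * (7 * (1 + Λ) + 2 * C) / δ)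
  refine ⟨Λ, hΛ1, max (max (max N₁ N₂) (max N₃ N₄)) (max (max R₀ l₀) 1), fun ℓ hℓ => ?_⟩
  have c1 : N₁ ≤ ℓ := (((le_max_left _ _).trans (le_max_left _ _)).trans (le_max_left _ _)).trans hℓ
  have c2 : N₂ ≤ ℓ :=
    (((le_max_right _ _).trans (le_max_left _ _)).trans (le_max_left _ _)).trans hℓ
  have c3 : N₃ ≤ ℓ :=
    (((le_max_left _ _).trans (le_max_right _ _)).trans (le_max_left _ _)).trans hℓ
  have c4 : N₄ ≤ ℓ :=
    (((le_max_right _ _).trans (le_max_right _ _)).trans (le_max_left _ _)).trans hℓ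
  have c5 : R₀ ≤ ℓ :=
    (((le_max_left _ _).trans (le_max_left _ _)).trans (le_max_right _ _)).trans hℓ
  have c6 : l₀ ≤ ℓ :=
    (((le_max_right _ _).trans (le_max_left _ _)).trans (le_max_right _ _)).trans hℓ
  have c7 : 1 ≤ ℓ := ((le_max_right _ _).trans (le_max_right _ _)).trans hℓ
  have key : ∀ {u v : ℝ} {N : ℕ}, 0 < v → u / v ≤ N → N ≤ ℓ → u ≤ v * ℓ := by
    intro u v N hv h1 h2
    have h3 : u / v ≤ ℓ := h1.trans (by exact_mod_cast h2)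
    rw [div_le_iff₀ hv] at h3
    linarith
  have D : BD m A ρ C σ κ ς₀ ε δ C' Λ r₁ ℓ :=
    { hA := hA
      hρ := hρ
      hC := hC
      hσ := hσ
      hσκ := hσκ
      hκ1 := hκδ.trans hδ'2
      hκδ := by linarith
      hρσ := hρσ
      hε := hε0
      hεσ := hεσ
      hC' := hC'.ge
      hΛ := hΛ1
      hℓ := c7
      l1 := key hσ hN₁ c1
      l2 := key hς₀ hN₂ c2
      l3 := key hσ hN₃ c3
      l4 := key hδ hN₄ c4 }
  exact base_stp D hG hT c6 c5 hθ hB hΛ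

/-- **From the four inputs to the bound by the cost of the times.** -/
theorem bn_of_potBs (h : PotBsStmt m) : BNStmt m := bn_of_potTs (potTs_of_potBs h)

end Pool.KNW
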