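import Pool.Agent.H53.BE.Thin
import Pool.Agent.H10.FTM.Pure
import Pool.Agent.H96.KN.Walk4

/-!
# Families with a noise

`nzF g F`: the family `F`, each line replaced by a uniform random line of a grid of mesh
`2 ^ (-(J + g))` in the cell of side `2 ^ (-J)` of the line; the grids of different lines are
disjoint. The costs of the times are the same, the entropies of the points and of the directions
change by constants.
-/

set_option autoImplicit false

namespace Pool.KNW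

open Finset Real
open Pool.Agent.H49.Ent Pool.Agent.H32.Dense Pool.STK Pool.KA
open Pool.KM7 (Psh BL)
open Pool.KN (Adm Bd cst)
open Pool.FTM (un un_isLaw un_psh un_pos CH_un CH_un_snd)
open Pool.THIN (Nz gl)

variable {m J : ℕ}

/-- **A family with a noise** of depth `g`. -/
structure Nsy (g : ℕ) {m J : ℕ} (G : Fam m J) where
  /-- the samples before the noise -/
  A : Type
  O : G.Ω → A
  ξ : G.Ω → Nz m g
  l₀ : A → Pool.SH.Ln m
  detZ : ∀ ω ω', O ω = O ω' → G.Z ω = G.Z ω'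
  detT : ∀ ω ω', O ω = O ω' → G.T ω = G.T ω'
  full : (2 * m * g : ℝ) * Real.log 2 ≤ CH G.p ξ O
  box : ∀ ω, (∀ k, |(l₀ (O ω)).1 k| ≤ 2) ∧ ∀ k, |(l₀ (O ω)).2 k| ≤ 2
  line : ∀ ω, G.l ω = gl J g (l₀ (O ω)) (ξ ω)
  bd : ∀ ω k, |G.u ω k| ≤ 2

/-! ### The lines before the noise -/

open Classical in
/-- A number in `[0, 1)` which depends injectively on the line. -/
noncomputable def iot (F : Fam m J) (l : Pool.SH.Ln m) : ℝ :=
  if h : l ∈ Finset.univ.image F.l then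
    (((Finset.univ.image F.l).equivFin ⟨l, h⟩ : ℕ) : ℝ) / (Finset.univ.image F.l).card
  else 0

theorem iot_mem (F : Fam m J) (l : Pool.SH.Ln m) : 0 ≤ iot F l ∧ iot F l < 1 := by
  classical
  unfold iot
  split_ifs with h
  · have h1 : 0 < (Finset.univ.image F.l).card := Finset.card_pos.2 ⟨l, h⟩
    have h2 : (0 : ℝ) < (Finset.univ.image F.l).card := by exact_mod_cast h1
    refine ⟨by positivity, ?_⟩
    rw [div_lt_one h2]
    exact_mod_cast ((Finset.univ.image F.l).equivFin ⟨l, h⟩).2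
  · exact ⟨le_refl _, one_pos⟩

theorem iot_inj (F : Fam m J) (ω ω' : F.Ω) (h : iot F (F.l ω) = iot F (F.l ω')) :
    F.l ω = F.l ω' := by
  classical
  have h1 : ∀ ω, F.l ω ∈ Finset.univ.image F.l := fun ω =>
    Finset.mem_image_of_mem _ (Finset.mem_univ _)
  unfold iot at h
  rw [dif_pos (h1 ω), dif_pos (h1 ω')] at h
  have h2 : (0 : ℝ) < (Finset.univ.image F.l).card := by
    exact_mod_cast Finset.card_pos.2 ⟨_, h1 ω⟩
  rw [div_left_inj' h2.ne'] at h
  have h3 : (Finset.univ.image F.l).equivFin ⟨F.l ω, h1 ω⟩ =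
      (Finset.univ.image F.l).equivFin ⟨F.l ω', h1 ω'⟩ := Fin.ext (by exact_mod_cast h)
  exact congrArg Subtype.val ((Finset.univ.image F.l).equivFin.injective h3)

/-- A number, moved to the interior. -/
noncomputable def bse (J : ℕ) (x : ℝ) : ℝ := if 0 ≤ x then x - 1 / 2 ^ J else x

/-- The line before the noise. -/
noncomputable def lz (g : ℕ) (F : Fam m J) (ω : F.Ω) : Pool.SH.Ln m :=
  (fun k => ((⌊(2 : ℝ) ^ (J + g) * bse J (F.u ω k)⌋ : ℝ) + iot F (F.l ω)) / 2 ^ (J + g),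
    fun k => bse J (F.d ω k))

theorem lz_congr (g : ℕ) (F : Fam m J) {ω ω' : F.Ω} (h : F.l ω = F.l ω') :
    lz g F ω = lz g F ω' := by
  have h1 : F.u ω = F.u ω' := (Prod.ext_iff.1 h).1
  have h2 : F.d ω = F.d ω' := (Prod.ext_iff.1 h).2
  unfold lz
  rw [h1, h2, h]

theorem lz_one (g : ℕ) (F : Fam m J) (ω : F.Ω) (k : Fin m) :
    |(lz g F ω).1 k - bse J (F.u ω k)| ≤ 1 / 2 ^ (J + g) := by
  have h1 : (0 : ℝ) < 2 ^ (J + g) := by positivity
  have h2 := Int.floor_le ((2 : ℝ) ^ (J + g) * bse J (F.u ω k))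
  have h3 := Int.lt_floor_add_one ((2 : ℝ) ^ (J + g) * bse J (F.u ω k))
  have h4 := iot_mem F (F.l ω)
  have e : (lz g F ω).1 k - bse J (F.u ω k) =
      ((⌊(2 : ℝ) ^ (J + g) * bse J (F.u ω k)⌋ : ℝ) + iot F (F.l ω) -
        2 ^ (J + g) * bse J (F.u ω k)) / 2 ^ (J + g) := by
    unfold lz
    field_simp
  rw [e, abs_div, abs_of_pos h1]
  refine div_le_div_of_nonneg_right ?_ h1.le
  rw [abs_le]
  constructor <;> linarith [h4.1, h4.2]

theorem ns_mem (J g : ℕ) (x : Fin (2 ^ g)) :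
    0 ≤ ((x : ℕ) : ℝ) / 2 ^ (J + g) ∧ ((x : ℕ) : ℝ) / 2 ^ (J + g) ≤ 1 / 2 ^ J := by
  refine ⟨by positivity, ?_⟩
  rw [div_le_div_iff₀ (by positivity) (by positivity), pow_add, one_mul]
  have h1 : ((x : ℕ) : ℝ) ≤ 2 ^ g := by exact_mod_cast x.2.le
  nlinarith [show (0 : ℝ) < 2 ^ J by positivity]

theorem two_pow_J (J : ℕ) : (1 : ℝ) / 2 ^ J ≤ 1 := by
  rw [div_le_one (by positivity)]
  exact one_le_pow₀ (by norm_num)

theorem one_le_Jg (J g : ℕ) : (1 : ℝ) / 2 ^ (J + g) ≤ 1 / 2 ^ J :=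
  one_div_le_one_div_of_le (by positivity) (pow_le_pow_right₀ (by norm_num) (Nat.le_add_right _ _))

/-- A point of the cell of the interior point. -/
theorem bse_add {J : ℕ} {x y : ℝ} (hx : |x| ≤ 1) (h0 : 0 ≤ y) (h1 : y ≤ 1 / 2 ^ J) :
    |bse J x + y| ≤ 1 ∧ |bse J x + y - x| ≤ 1 / 2 ^ J := by
  have h2 := abs_le.1 hx
  have h3 := two_pow_J J
  unfold bse
  split_ifs with h
  · constructor
    · rw [abs_le]
      constructor <;> linarith [h2.1, h2.2]
    · rw [abs_le]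
      constructor <;> linarith
  · push Not at h
    constructor
    · rw [abs_le]
      constructor <;> linarith [h2.1, h2.2]
    · rw [abs_le]
      constructor <;> linarith

/-- The velocities stay in the box. -/
theorem dir_nz (g : ℕ) (F : Fam m J) (ω : F.Ω) (ξ : Nz m g) (k : Fin m) :
    |(gl J g (lz g F ω) ξ).2 k| ≤ 1 ∧ |(gl J g (lz g F ω) ξ).2 k - F.d ω k| ≤ 1 / 2 ^ J := by
  have h1 := ns_mem J g (ξ.2 k)
  exact bse_add (F.dir ω k) h1.1 h1.2

/-- The positions. -/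
theorem pos_nz (g : ℕ) (F : Fam m J) (ω : F.Ω) (ξ : Nz m g) (k : Fin m) (hu : |F.u ω k| ≤ 1) :
    |(gl J g (lz g F ω) ξ).1 k| ≤ 2 ∧
      |(gl J g (lz g F ω) ξ).1 k - F.u ω k| ≤ 2 * (1 / 2 ^ J) := by
  have h1 := ns_mem J g (ξ.1 k)
  have h2 := lz_one g F ω k
  have h3 := bse_add hu h1.1 h1.2
  have h4 := one_le_Jg J g
  have h5 := two_pow_J J
  have e : (gl J g (lz g F ω) ξ).1 k = ((lz g F ω).1 k - bse J (F.u ω k)) +
      (bse J (F.u ω k) + ((ξ.1 k : ℕ) : ℝ) / 2 ^ (J + g)) := by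
    unfold gl
    ring
  constructor
  · rw [e]
    refine (abs_add_le _ _).trans ?_
    linarith [h3.1]
  · have e1 : (gl J g (lz g F ω) ξ).1 k - F.u ω k = ((lz g F ω).1 k - bse J (F.u ω k)) +
        (bse J (F.u ω k) + ((ξ.1 k : ℕ) : ℝ) / 2 ^ (J + g) - F.u ω k) := by
      rw [e]
      ring
    rw [e1]
    refine (abs_add_le _ _).trans ?_
    linarith [h3.2]

/-- The lines of different lines are different. -/
theorem gl_inj (g : ℕ) (F : Fam m J) (ω ω' : F.Ω) (ξ ξ' : Nz m g)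
    (h : gl J g (lz g F ω) ξ = gl J g (lz g F ω') ξ') : F.l ω = F.l ω' := by
  rcases Nat.eq_zero_or_pos m with hm | hm
  · subst hm
    exact Prod.ext (Subsingleton.elim _ _) (Subsingleton.elim _ _)
  refine iot_inj F ω ω' ?_
  have h1 := congrFun (congrArg Prod.fst h) ⟨0, hm⟩
  have hp : (0 : ℝ) < 2 ^ (J + g) := by positivity
  unfold gl lz at h1
  simp only at h1
  rw [← add_div, ← add_div, div_left_inj' hp.ne'] at h1
  have h2 := iot_mem F (F.l ω)
  have h3 := iot_mem F (F.l ω')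
  -- the fractional parts
  have e : ∀ (a : ℤ) (x : ℝ) (n : ℕ), 0 ≤ x → x < 1 → Int.fract ((a : ℝ) + x + n) = x := by
    intro a x n hx0 hx1
    have e1 : (a : ℝ) + x + n = x + ((a + n : ℤ) : ℝ) := by
      push_cast
      ring
    rw [e1, Int.fract_add_intCast, Int.fract_eq_self.2 ⟨hx0, hx1⟩]
  rw [← e _ _ (ξ.1 ⟨0, hm⟩ : ℕ) h2.1 h2.2, h1, e _ _ _ h3.1 h3.2]

/-! ### The family -/

/-- The number of the noises. -/
def nN (m g : ℕ) : ℕ := Fintype.card (Nz m g)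

theorem nN_pos (m g : ℕ) : 0 < nN m g := by
  have : Nonempty (Fin (2 ^ g)) := ⟨⟨0, by positivity⟩⟩
  exact Fintype.card_pos

theorem nN_eq (m g : ℕ) : Real.log (nN m g) = (2 * m * g : ℝ) * Real.log 2 := by
  unfold nN Nz
  rw [Fintype.card_prod, Fintype.card_fun, Fintype.card_fin, Fintype.card_fin]
  push_cast
  rw [← pow_mul, ← pow_add, Real.log_pow]
  push_cast
  ring

/-- The noise with a number. -/
noncomputable def xN (m g : ℕ) : Fin (nN m g) ≃ Nz m g := (Fintype.equivFin (Nz m g)).symm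

/-- **The family with a noise.** -/
noncomputable def nzF (g : ℕ) (F : Fam m J) : Fam m J where
  Ω := F.Ω × Fin (nN m g)
  ζ := F.ζ
  fin := inferInstance
  p := un (nN m g) F.p
  u := fun e => (gl J g (lz g F e.1) (xN m g e.2)).1
  d := fun e => (gl J g (lz g F e.1) (xN m g e.2)).2
  T := fun e => F.T e.1
  Z := fun e => F.Z e.1
  isLaw := un_isLaw (nN_pos m g) F.isLaw
  dir := fun e k => (dir_nz g F e.1 (xN m g e.2) k).1
  tim := fun e => F.tim e.1

/-- It is a family with a noise. -/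
noncomputable def nzF_nsy (g : ℕ) (F : Fam m J) (hF : Bd F) : Nsy g (nzF g F) where
  A := F.Ω
  O := fun e => e.1
  ξ := fun e => xN m g e.2
  l₀ := lz g F
  detZ := fun ω ω' h => by
    change F.Z ω.1 = F.Z ω'.1
    rw [show ω.1 = ω'.1 from h]
  detT := fun ω ω' h => by
    change F.T ω.1 = F.T ω'.1
    rw [show ω.1 = ω'.1 from h]
  full := by
    have h1 := CH_un_snd (nN_pos m g) F.isLaw (fun ω : F.Ω => ω)
    rw [nN_eq] at h1
    rw [← h1]
    refine CH_mono_left (un_isLaw (nN_pos m g) F.isLaw).nonneg ?_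
    intro a b _ _ hab
    exact (xN m g).injective (Prod.ext_iff.1 hab).1
  box := fun ω => by
    have h3 := one_le_Jg J g
    have h4 := two_pow_J J
    have h5 : (0 : ℝ) < 1 / 2 ^ J := by positivity
    constructor
    · intro k
      have h1 := abs_le.1 (lz_one g F ω.1 k)
      have h2 := abs_le.1 (bse_add (J := J) (hF ω.1 k) le_rfl h5.le).1
      rw [add_zero] at h2
      rw [abs_le]
      constructor <;> linarith [h1.1, h1.2, h2.1, h2.2]
    · intro k
      have h2 := abs_le.1 (bse_add (J := J) (F.dir ω.1 k) le_rfl h5.le).1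
      rw [add_zero] at h2
      have e : (lz g F ω.1).2 k = bse J (F.d ω.1 k) := rfl
      rw [e, abs_le]
      constructor <;> linarith [h2.1, h2.2]
  line := fun ω => rfl
  bd := fun ω k => (pos_nz g F ω.1 (xN m g ω.2) k (hF ω.1 k)).1

/-! ### The cost of the times -/

theorem adm_nz (g : ℕ) (F : Fam m J) {Y : Type} {K N : ℕ} {y : ℕ → F.Ω → Y}
    (h : Adm K N F y) : Adm K N (nzF g F) (fun i e => y i e.1) := by
  intro i hi a b ha hb hab
  have h1 : (nzF g F).l a = (nzF g F).l b := (Prod.ext_iff.1 (Prod.ext_iff.1 hab).1).1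
  have h2 : F.Z a.1 = F.Z b.1 := (Prod.ext_iff.1 (Prod.ext_iff.1 hab).1).2
  have h3 : F.T a.1 / 2 ^ (K * (i + 1)) = F.T b.1 / 2 ^ (K * (i + 1)) := (Prod.ext_iff.1 hab).2
  have h4 : F.l a.1 = F.l b.1 := gl_inj g F a.1 b.1 _ _ h1
  exact h i hi a.1 b.1 (un_pos ha) (un_pos hb) (Prod.ext (Prod.ext h4 h2) h3)

theorem cst_nz (g : ℕ) (F : Fam m J) {Y : Type} (f : Y → ℕ → ℝ) {Λ : ℝ} (hΛ : 0 ≤ Λ) (K N : ℕ)
    (y : ℕ → F.Ω → Y) :
    cst f Λ K N (nzF g F) (fun i e => y i e.1) ≤ cst f Λ K N F y := by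
  have hpsh := un_psh (nN_pos m g) F.p
  have hN := un_isLaw (nN_pos m g) F.isLaw
  have h1 : ∀ i, Ex (nzF g F).p (fun e => f (y i e.1) ((nzF g F).T e / 2 ^ (K * i) % 2 ^ K)) =
      Ex F.p (fun ω => f (y i ω) (F.T ω / 2 ^ (K * i) % 2 ^ K)) := fun i =>
    hpsh.Ex_eq (fun ω => f (y i ω) (F.T ω / 2 ^ (K * i) % 2 ^ K))
  have h2 : CH F.p (fun ω => F.T ω % 2 ^ (K * N)) (fun ω => ((F.l ω, F.Z ω), F.T ω / 2 ^ (K * N))) ≤
      CH (nzF g F).p (fun e => (nzF g F).T e % 2 ^ (K * N))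
        (fun e => (((nzF g F).l e, (nzF g F).Z e), (nzF g F).T e / 2 ^ (K * N))) := by
    have h4 := CH_un (nN_pos m g) F.isLaw (fun e : F.Ω × Fin (nN m g) => F.T e.1 % 2 ^ (K * N))
      (fun e => ((F.l e.1, F.Z e.1), F.T e.1 / 2 ^ (K * N)))
    have hc : (0 : ℝ) < nN m g := by exact_mod_cast nN_pos m g
    have h5 : CH (un (nN m g) F.p) (fun e : F.Ω × Fin (nN m g) => F.T e.1 % 2 ^ (K * N))
        (fun w => (w.2, ((F.l w.1, F.Z w.1), F.T w.1 / 2 ^ (K * N)))) =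
        CH F.p (fun ω => F.T ω % 2 ^ (K * N))
          (fun ω => ((F.l ω, F.Z ω), F.T ω / 2 ^ (K * N))) := by
      rw [h4]
      change (∑ _i : Fin (nN m g), CH F.p (fun ω => F.T ω % 2 ^ (K * N))
          (fun ω => ((F.l ω, F.Z ω), F.T ω / 2 ^ (K * N)))) / _ = _
      rw [Finset.sum_const, Finset.card_univ, Fintype.card_fin, nsmul_eq_mul,
        mul_div_cancel_left₀ _ hc.ne']
    rw [← h5]
    refine CH_mono_cond hN.nonneg ?_
    intro a b _ _ hab
    have e1 : a.2 = b.2 := (Prod.ext_iff.1 hab).1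
    have e2 := (Prod.ext_iff.1 hab).2
    have e3 : F.l a.1 = F.l b.1 := (Prod.ext_iff.1 (Prod.ext_iff.1 e2).1).1
    have e4 : F.Z a.1 = F.Z b.1 := (Prod.ext_iff.1 (Prod.ext_iff.1 e2).1).2
    have e5 : F.T a.1 / 2 ^ (K * N) = F.T b.1 / 2 ^ (K * N) := (Prod.ext_iff.1 e2).2
    have e6 : (nzF g F).l a = (nzF g F).l b := by
      change gl J g (lz g F a.1) (xN m g a.2) = gl J g (lz g F b.1) (xN m g b.2)
      rw [e1, lz_congr g F e3]
    exact Prod.ext (Prod.ext e6 e4) e5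
  unfold cst
  rw [Finset.sum_congr rfl fun i _ => h1 i]
  have h6 := mul_le_mul_of_nonneg_left h2 hΛ
  linarith

/-! ### The points and the directions -/

theorem fl_near {j : ℕ} {x y : ℝ} {c : ℕ} (h : |x - y| ≤ c * (1 / 2 ^ j)) :
    |((⌊(2 : ℝ) ^ j * x⌋ - ⌊(2 : ℝ) ^ j * y⌋ : ℤ) : ℝ)| ≤ c + 1 := by
  have h0 : (0 : ℝ) < 2 ^ j := by positivity
  have h1 : |(2 : ℝ) ^ j * x - 2 ^ j * y| ≤ c := by
    rw [← mul_sub, abs_mul, abs_of_pos h0]
    calc (2 : ℝ) ^ j * |x - y| ≤ 2 ^ j * (c * (1 / 2 ^ j)) := mul_le_mul_of_nonneg_left h h0.le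
      _ = c := by field_simp
  have h2 := abs_le.1 h1
  have h3 := Int.floor_le ((2 : ℝ) ^ j * x)
  have h4 := Int.lt_floor_add_one ((2 : ℝ) ^ j * x)
  have h5 := Int.floor_le ((2 : ℝ) ^ j * y)
  have h6 := Int.lt_floor_add_one ((2 : ℝ) ^ j * y)
  push_cast
  rw [abs_le]
  constructor <;> linarith [h2.1, h2.2]

/-- The entropy of integer vectors which are close to other ones. -/
theorem ch_near {Ω S : Type} [Fintype Ω] {p : Ω → ℝ} (hp : IsLaw p) (X Y : Ω → Fin m → ℤ)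
    (W : Ω → S) (c : ℝ) (h : ∀ ω, 0 < p ω → ∀ k, |((X ω k - Y ω k : ℤ) : ℝ)| ≤ c) :
    CH p X W ≤ CH p Y W + m * Real.log (4 * c + 1) := by
  have h1 := CH_le_add hp.nonneg X Y W
  have h2 := CH_le_vec hp.nonneg hp.sum_one X (fun ω => (Y ω, W ω)) (fun _ => 2 * c) (by
    intro ω ω' hω hω' hW k
    have h3 : Y ω k = Y ω' k := congrFun (Prod.ext_iff.1 hW).1 k
    have h4 := h ω hω k
    have h5 := h ω' hω' k
    rw [h3] at h4
    push_cast at h4 h5 ⊢
    have e : (X ω k : ℝ) - X ω' k = (X ω k - Y ω' k) - (X ω' k - Y ω' k) := by ring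
    rw [e]
    refine (abs_sub _ _).trans ?_
    linarith)
  rw [Ex_const hp.sum_one] at h2
  have e : 2 * (2 * c) + 1 = 4 * c + 1 := by ring
  rw [e] at h2
  linarith

/-- The entropy of the directions. -/
theorem dir_ent (g : ℕ) (F : Fam m J) :
    CH F.p (F.D J) F.Z ≤ CH (nzF g F).p ((nzF g F).D J) (nzF g F).Z + m * Real.log 9 := by
  have hpsh := un_psh (nN_pos m g) F.p
  have h1 := hpsh.CH_eq (F.D J) F.Z
  rw [← h1]
  have h2 := ch_near (un_isLaw (nN_pos m g) F.isLaw) (fun e => F.D J e.1)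
    ((nzF g F).D J) (fun e => F.Z e.1) 2 (by
    intro e _ k
    have h3 := (dir_nz g F e.1 (xN m g e.2) k).2
    have h4 := fl_near (j := J) (x := F.d e.1 k)
      (y := (gl J g (lz g F e.1) (xN m g e.2)).2 k) (c := 1) (by
        rw [abs_sub_comm]
        push_cast
        linarith)
    refine h4.trans ?_
    norm_num)
  have e : (4 : ℝ) * 2 + 1 = 9 := by norm_num
  rw [e] at h2
  exact h2

/-- The entropy of the points. -/
theorem pos_ent (g : ℕ) (F : Fam m J) (hF : Bd F) :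
    CH (nzF g F).p (fun e => ((nzF g F).X J e, (nzF g F).T e)) (nzF g F).Z ≤
      CH F.p (fun ω => (F.X J ω, F.T ω)) F.Z + m * Real.log 17 := by
  have hpsh := un_psh (nN_pos m g) F.p
  have hN := un_isLaw (nN_pos m g) F.isLaw
  have h1 := hpsh.CH_eq (fun ω => (F.X J ω, F.T ω)) F.Z
  have h2 := CH_chain hN.nonneg ((nzF g F).X J) (fun e => F.T e.1) (fun e => F.Z e.1)
  have h3 := CH_chain hN.nonneg (fun e : F.Ω × Fin (nN m g) => F.X J e.1)
    (fun e => F.T e.1) (fun e => F.Z e.1)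
  have h4 := ch_near hN ((nzF g F).X J) (fun e => F.X J e.1)
    (fun e => (F.T e.1, F.Z e.1)) 4 (by
    intro e _ k
    have h5 := (dir_nz g F e.1 (xN m g e.2) k).2
    have h6 := (pos_nz g F e.1 (xN m g e.2) k (hF e.1 k)).2
    have ht : |(F.T e.1 : ℝ) / 2 ^ J| ≤ 1 := by
      rw [abs_of_nonneg (by positivity), div_le_one (by positivity)]
      exact_mod_cast (F.tim e.1).le
    have h7 := fl_near (j := J) (x := (nzF g F).x e k) (y := F.x e.1 k) (c := 3) (by
      have e1 : (nzF g F).x e k - F.x e.1 k = ((gl J g (lz g F e.1) (xN m g e.2)).1 k - F.u e.1 k) +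
          (F.T e.1 : ℝ) / 2 ^ J * ((gl J g (lz g F e.1) (xN m g e.2)).2 k - F.d e.1 k) := by
        change (gl J g (lz g F e.1) (xN m g e.2)).1 k +
          (F.T e.1 : ℝ) / 2 ^ J * (gl J g (lz g F e.1) (xN m g e.2)).2 k -
          (F.u e.1 k + (F.T e.1 : ℝ) / 2 ^ J * F.d e.1 k) = _
        ring
      rw [e1]
      refine (abs_add_le _ _).trans ?_
      rw [abs_mul]
      have h8 : |(F.T e.1 : ℝ) / 2 ^ J| * |(gl J g (lz g F e.1) (xN m g e.2)).2 k - F.d e.1 k| ≤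
          1 * (1 / 2 ^ J) := mul_le_mul ht h5 (abs_nonneg _) zero_le_one
      push_cast
      linarith)
    refine h7.trans ?_
    norm_num)
  have e : (4 : ℝ) * 4 + 1 = 17 := by norm_num
  rw [e] at h4
  rw [← h1]
  change CH (un (nN m g) F.p) (fun e => ((nzF g F).X J e, F.T e.1)) (fun e => F.Z e.1) ≤ _
  rw [h2, h3]
  linarith

end Pool.KNW
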