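import Pool.Agent.H53.KNW.Nse

/-!
# The wrapper: the ends of the walk for families with a noise

`EndsNs`: the two ends of the walk, asked only for the families with a noise (exact lines on a
grid, the depth of the noise depends on the resolution). `bn_of_potTs`: this is enough for the
bound by the cost of the times.
-/

set_option autoImplicit false

namespace Pool.KNW

open Finset Real
open Pool.Agent.H49.Ent Pool.Agent.H32.Dense Pool.STK Pool.KA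
open Pool.KM7 (Psh BL)
open Pool.KN (Adm Bd cst fN nng_fN BNStmt co_cst log_log_lin)
open Pool.KN5

/-- The two ends of the walk, for families with a noise. -/
def EndsNs (m : ℕ) (ε : ℝ) (S : LSys m) : Prop :=
  ∃ (gg : ℕ → ℕ) (C : ℝ), 0 ≤ C ∧ ∀ (J : ℕ) (F : Fam m J), Nonempty (Nsy (gg J) F) →
    ∃ (c : F.ζ → S.Cx) (k a r₀ : ℕ),
    (∀ ω, 0 < F.p ω → S.Cw (c (F.Z ω)) 0) ∧
    (k : ℝ) + r₀ ≤ C * (J + 1) ∧
    (∀ (θ : F.ζ → S.V → ℝ) (d : ℝ),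
      (∀ z v, S.age v = 0 → (∀ n : ℝ, 1 ≤ n → S.lgv n k (c z) v ≤ Real.log (k + r₀ + 2)) →
        J * S.dp J v ≤ 1 → θ z v ≤ d) → S.Get F J c k a θ
      ((m + 1) * (J * Real.log 2) - CH F.p (fun ω => (F.X J ω, F.T ω)) F.Z - ε * J - C - d)) ∧
    ∀ (a' : ℕ) (θ : F.ζ → S.V → ℝ) (x : ℝ), a' ≤ J → (∀ z v, 0 ≤ θ z v) →
      S.Get F 0 c k (a + a') θ x →
      x ≤ m * (J * Real.log 2) - CH F.p (F.D J) F.Z + ε * (J + a') + C

/-- **What has to be proved for the class of labels**: 96's `PotTStmt` with the ends for the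
families with a noise. -/
def PotTsStmt (m : ℕ) : Prop :=
  ∀ δ : ℝ, 0 < δ → ∃ (S : LSys m) (κ C B C₂ σm : ℝ) (g : ℕ), 1 ≤ C ∧ 0 ≤ B ∧ 0 ≤ σm ∧
    σm < κ ∧ LOCZ S κ C B C₂ σm g ∧ EndsNs m δ S ∧ BaseN m δ κ C σm g S

/-- **From the class of labels to the bound by the cost of the times.** -/
theorem bn_of_potTs {m : ℕ} (h : PotTsStmt m) : BNStmt m := by
  intro δ hδ
  obtain ⟨S, κ, C, B, C₂, σm, g, hC, hB, hσ0, hσκ, hL, ⟨gg, C₁, hC₁, hE⟩, η, hη, hBs⟩ :=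
    h (δ / 8) (by positivity)
  refine ⟨η, hη, fun K hK => ?_⟩
  obtain ⟨Λ, hΛ, L₀, hST⟩ := hBs K hK
  have hΛ0 : 0 < Λ := by linarith
  have hC0 : 0 ≤ C := by linarith
  have hl2 : 0 < Real.log 2 := Real.log_pos (by norm_num)
  have hg0 : (0 : ℝ) ≤ g := Nat.cast_nonneg g
  obtain ⟨Q, hQ⟩ : ∃ Q, Q = (2 * C * Real.log 2 + B) * (1 + Λ) := ⟨_, rfl⟩
  have hQ0 : 0 ≤ Q := by
    rw [hQ]
    positivity
  obtain ⟨L₁, hL₁⟩ := exists_nat_ge (Q / (δ / 8))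
  obtain ⟨L₂, hL₂⟩ := exists_nat_ge (5 * C * (1 + Λ) / (κ - σm))
  obtain ⟨L₃, hL₃⟩ := exists_nat_ge (C₂ * (1 + Λ))
  refine ⟨Λ, hΛ, max (max (max L₀ L₁) (max L₂ L₃)) (max (2 * g) 1), fun L hLL => ?_⟩
  have l0 : L₀ ≤ L := (((le_max_left _ _).trans (le_max_left _ _)).trans
    (le_max_left _ _)).trans hLL
  have l1 : L₁ ≤ L := (((le_max_right _ _).trans (le_max_left _ _)).trans
    (le_max_left _ _)).trans hLL
  have l2 : L₂ ≤ L := (((le_max_left _ _).trans (le_max_right _ _)).trans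
    (le_max_left _ _)).trans hLL
  have l3 : L₃ ≤ L := (((le_max_right _ _).trans (le_max_right _ _)).trans
    (le_max_left _ _)).trans hLL
  have l4 : 2 * g ≤ L := ((le_max_left _ _).trans (le_max_right _ _)).trans hLL
  have l5 : 1 ≤ L := ((le_max_right _ _).trans (le_max_right _ _)).trans hLL
  have hL0 : (1 : ℝ) ≤ L := by exact_mod_cast l5
  have hQL : Q / L ≤ δ / 8 := by
    have h1 : Q / (δ / 8) ≤ L := hL₁.trans (by exact_mod_cast l1)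
    rw [div_le_iff₀ (by positivity)] at h1
    rw [div_le_iff₀ (by linarith)]
    linarith
  have hκL : σm + 5 * C * (1 + Λ) / L ≤ κ := by
    have h1 : 5 * C * (1 + Λ) / (κ - σm) ≤ L := hL₂.trans (by exact_mod_cast l2)
    rw [div_le_iff₀ (by linarith)] at h1
    have h2 : 5 * C * (1 + Λ) / L ≤ κ - σm := by
      rw [div_le_iff₀ (by linarith)]
      linarith
    linarith
  have hKL : C₂ * (1 + Λ) ≤ (L : ℝ) := hL₃.trans (by exact_mod_cast l3)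
  obtain ⟨q, hq⟩ : ∃ q, q = 4 * C * (1 + Λ) := ⟨_, rfl⟩
  have hq0 : 0 ≤ q := by
    rw [hq]
    positivity
  refine ⟨2 * C₁ + 1 + (2 * (δ / 8) + 64 * q ^ 2 / (δ / 8 / (C₁ + 1))) +
    (m * Real.log 9 + m * Real.log 17), ?_⟩
  intro N F₀ y₀ hBd hAdm₀
  obtain ⟨F, hFe⟩ : ∃ F : Fam m (L * N), F = nzF (gg (L * N)) F₀ := ⟨_, rfl⟩
  have hdir := dir_ent (gg (L * N)) F₀
  have hpos := pos_ent (gg (L * N)) F₀ hBd
  obtain ⟨y, hAdm, hcst⟩ : ∃ y : ℕ → F.Ω → BL L, Adm L N F y ∧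
      cst (fN (m + 1) L K η Λ) Λ L N F y ≤ cst (fN (m + 1) L K η Λ) Λ L N F₀ y₀ := by
    subst hFe
    exact ⟨fun i e => y₀ i e.1, adm_nz _ F₀ hAdm₀, cst_nz _ F₀ _ hΛ0.le _ _ y₀⟩
  rw [← hFe] at hdir hpos
  have hns : Nonempty (Nsy (gg (L * N)) F) := by
    rw [hFe]
    exact ⟨nzF_nsy (gg (L * N)) F₀ hBd⟩
  obtain ⟨c, k, a, r₀, hcw, hka, hG, hF⟩ := hE (L * N) F hns
  have hκ0 : 0 ≤ κ := by linarith
  have h1 := thmBN hC hB hσ0 hL hΛ0 hKL l5 (nng_fN (by omega) K η hΛ) (by positivity) hκL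
    (hST L l0) rfl F y hAdm c hcw k a r₀ _ hG
  have h2 := hF _ _ _ (Nat.mul_le_mul_right N l4) (fun z v => by positivity) h1
  rw [co_cst, ← hq, ← hQ] at h2
  obtain ⟨J, hJ⟩ : ∃ J : ℝ, J = ((L * N : ℕ) : ℝ) := ⟨_, rfl⟩
  rw [← hJ] at h2 hka
  have hgN : ((2 * g * N : ℕ) : ℝ) ≤ J := by
    have h3 : 2 * g * N ≤ L * N := Nat.mul_le_mul_right _ l4
    rw [hJ]
    exact_mod_cast h3
  have hJ0 : (0 : ℝ) ≤ J := by
    rw [hJ]
    exact Nat.cast_nonneg _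
  have hNJ : (N : ℝ) ≤ J := by
    have h3 : N ≤ L * N := Nat.le_mul_of_pos_left _ l5
    rw [hJ]
    exact_mod_cast h3
  have h3 := log_log_lin (ε := δ / 8) (C₁ := C₁) (q := q) (N := (N : ℝ))
    (x := (k : ℝ) + r₀) (J := J) (by positivity) hC₁ hq0 (Nat.cast_nonneg N) (by positivity)
    hNJ hka
  have h4 : δ / 8 * ((J : ℝ) + (2 * g * N : ℕ)) ≤ δ / 4 * J := by
    have h40 := mul_le_mul_of_nonneg_left hgN (show 0 ≤ δ / 8 by positivity)
    linarith only [h40]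
  have h5 : (δ / 8 + Q / L) * (J : ℝ) ≤ δ / 4 * J :=
    mul_le_mul_of_nonneg_right (by linarith) hJ0
  rw [← hJ]
  have e1 : ((m : ℝ) + 1) * (J * Real.log 2) = m * (J * Real.log 2) + J * Real.log 2 := by ring
  rw [e1] at h2
  have h6 : 0 ≤ δ * J := by positivity
  linarith

end Pool.KNW
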